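import Pool.Agent.Y727.PSP.Stm

/-!
# The relative Szemerédi theorem, assembly
-/

set_option autoImplicit false

open Finset

namespace Pool.Agent.Y727.PSP

open Pool.Agent.H602R3.DHJ

/-- averages over the image of a surjective homomorphism -/
theorem av_hom {G H : Type} [AddCommGroup G] [Fintype G] [AddCommGroup H] [Fintype H]
    (T : G →+ H) (hT : Function.Surjective T) (F : H → ℝ) :
    av (fun x => F (T x)) = av F := by
  classical
  obtain ⟨s, hs⟩ := hT.hasRightInverse
  have h1 : ∀ h : H, av (fun x => F (T x)) = av (fun x => F (T x + h)) := by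
    intro h
    rw [← av_equiv (Equiv.addRight (s h)) (fun x => F (T x))]
    congr 1
    funext x
    rw [Equiv.coe_addRight, map_add, hs h]
  have h2 : ∀ x : G, av (fun h : H => F (T x + h)) = av F := by
    intro x
    exact av_equiv (Equiv.addLeft (T x)) F
  calc av (fun x => F (T x)) = av (fun _ : H => av (fun x => F (T x))) := (av_const _).symm
    _ = av (fun h : H => av (fun x => F (T x + h))) := by
        congr 1
        funext h
        exact h1 h
    _ = av (fun x : G => av (fun h : H => F (T x + h))) := by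
        rw [← av_prod (fun p : H × G => F (T p.2 + p.1)), ← av_prod (fun p : G × H => F (T p.1 + p.2)),
          ← av_equiv (Equiv.prodComm H G) (fun p : G × H => F (T p.1 + p.2))]
        rfl
    _ = av (fun _ : G => av F) := by
        congr 1
        funext x
        exact h2 x
    _ = av F := av_const _

/-- the homomorphism `x ↦ (∑ i x_i, -∑ x_i)` -/
def Thom (r N : ℕ) : (Fin (r + 1) → ZMod N) →+ ZMod N × ZMod N where
  toFun x := (∑ i : Fin (r + 1), ((i : ℕ) : ZMod N) * x i, -∑ i : Fin (r + 1), x i)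
  map_zero' := by simp
  map_add' x y := by
    simp only [Pi.add_apply, mul_add, sum_add_distrib, neg_add, Prod.mk_add_mk]

theorem Thom_surj (r N : ℕ) (hr : 1 ≤ r) : Function.Surjective (Thom r N) := by
  intro p
  obtain ⟨a, d⟩ := p
  have h01 : (0 : Fin (r + 1)) ≠ ⟨1, by omega⟩ := by
    intro h
    have := congrArg Fin.val h
    simp at this
  refine ⟨fun i => if i = 0 then -d - a else if i = ⟨1, by omega⟩ then a else 0, ?_⟩
  have hsplit : ∀ c : Fin (r + 1) → ZMod N, ∑ i : Fin (r + 1), c i *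
      (if i = 0 then -d - a else if i = ⟨1, by omega⟩ then a else 0) =
      c 0 * (-d - a) + c ⟨1, by omega⟩ * a := by
    intro c
    rw [Finset.sum_eq_add (0 : Fin (r + 1)) (⟨1, by omega⟩ : Fin (r + 1)) h01]
    · rw [if_pos rfl, if_neg h01.symm, if_pos rfl]
    · intro i _ hi
      rw [if_neg hi.1, if_neg hi.2, mul_zero]
    · intro h
      exact absurd (mem_univ _) h
    · intro h
      exact absurd (mem_univ _) h
  show ((∑ i : Fin (r + 1), ((i : ℕ) : ZMod N) * _, -∑ i : Fin (r + 1), _) : ZMod N × ZMod N) = _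
  have e1 := hsplit (fun i => ((i : ℕ) : ZMod N))
  have e2 := hsplit (fun _ => 1)
  simp only [one_mul] at e2
  rw [Prod.mk.injEq]
  refine ⟨?_, ?_⟩
  · refine e1.trans ?_
    simp
  · rw [e2]
    ring

theorem Lf_eq (r N : ℕ) (j : Fin (r + 1)) (x : Fin (r + 1) → ZMod N) :
    Lf j x = (Thom r N x).1 + ((j : ℕ) : ZMod N) * (Thom r N x).2 := by
  show _ = (∑ i : Fin (r + 1), ((i : ℕ) : ZMod N) * x i) +
    ((j : ℕ) : ZMod N) * (-∑ i : Fin (r + 1), x i)
  unfold Lf
  rw [mul_neg, mul_sum, ← sub_eq_add_neg, ← sum_sub_distrib]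
  exact sum_congr rfl fun i _ => by ring

theorem av_AP (r N : ℕ) [NeZero N] (hr : 1 ≤ r) (F : ZMod N → ℝ) :
    av (fun x : Fin (r + 1) → ZMod N => ∏ j, F (Lf j x)) =
      av (fun p : ZMod N × ZMod N => ∏ j ∈ range (r + 1), F (p.1 + (j : ZMod N) * p.2)) := by
  rw [← av_hom (Thom r N) (Thom_surj r N hr)]
  congr 1
  funext x
  rw [← Fin.prod_univ_eq_prod_range (fun j => F ((Thom r N x).1 + (j : ZMod N) * (Thom r N x).2))]
  exact prod_congr rfl fun j _ => by rw [Lf_eq]

theorem av_sl {J V : Type} [Fintype J] [DecidableEq J] [Fintype V] [Nonempty V]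
    (F : (J → V) → ℝ) : av (fun y : J → V × V => F (sl ∅ y)) = av F := by
  classical
  have e : (fun y : J → V × V => F (sl ∅ y)) =
      fun y => (fun p : (J → V) × (J → V) => F p.1) ((Equiv.arrowProdEquivProdArrow J (fun _ => V) (fun _ => V)) y) := by
    funext y
    congr 1
  rw [e, av_equiv (Equiv.arrowProdEquivProdArrow J (fun _ => V) (fun _ => V))
    (fun p : (J → V) × (J → V) => F p.1), av_prod]
  congr 1
  funext x
  exact av_const (X := J → V) (F x)

theorem Ind_Lf {k N : ℕ} (j : Fin k) (F : ZMod N → ℝ) :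
    Ind j (fun x : Fin k → ZMod N => F (Lf j x)) := by
  intro x v
  show F _ = F _
  congr 1
  unfold Lf
  apply sum_congr rfl
  intro i _
  by_cases hi : i = j
  · subst hi
    simp
  · rw [Function.update_of_ne hi]

/-- the cut norm of `ν - 1` -/
theorem cut_nu {r N : ℕ} [NeZero N] {ε' : ℝ} (ν : ZMod N → ℝ)
    (h : ∀ (j : Fin (r + 1)) (g : Bool → Fin (r + 1) → (Fin (r + 1) → ZMod N) → ℝ)
      (b : Bool → Fin (r + 1) → Bool), (∀ c i, Ind i (g c i)) →
      (∀ c i x, |g c i x| ≤ if b c i = true then ν (Lf i x) else 1) →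
      |av (fun y : Fin (r + 1) → ZMod N × ZMod N => (ν (Lf j (sl ∅ y)) - 1) *
        ∏ i ∈ univ.erase j, (g false i (sl ∅ y) * g true i (sl {j} y)))| ≤ ε') :
    Cut (0 : Fin (r + 1)) (fun x => ν (Lf 0 x) - 1) ε' := by
  intro u hu hu1
  have h2 := h 0 (fun c i => if c = true then fun _ => 1 else u i) (fun _ _ => false)
      (fun c i => by
        by_cases hc : c = true
        · rw [if_pos hc]
          intro x v
          rfl
        · rw [if_neg hc]
          exact hu i)
      (fun c i x => by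
        by_cases hc : c = true
        · simp [hc]
        · simpa [hc] using hu1 i x)
  refine le_trans (le_of_eq ?_) h2
  have h3 := av_sl (J := Fin (r + 1)) (V := ZMod N)
      (fun x => (ν (Lf 0 x) - 1) * ∏ i ∈ univ.erase (0 : Fin (r + 1)), u i x)
  rw [← h3]
  have e : (fun y : Fin (r + 1) → ZMod N × ZMod N => (ν (Lf 0 (sl ∅ y)) - 1) *
      ∏ i ∈ univ.erase (0 : Fin (r + 1)), u i (sl ∅ y)) =
      fun y => (ν (Lf 0 (sl ∅ y)) - 1) *
        ∏ i ∈ univ.erase (0 : Fin (r + 1)),
          ((if (false : Bool) = true then fun _ => (1 : ℝ) else u i) (sl ∅ y) *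
            (if (true : Bool) = true then fun _ => (1 : ℝ) else u i) (sl {0} y)) := by
    funext y
    congr 1
    apply prod_congr rfl
    intro i _
    rw [if_neg Bool.false_ne_true, if_pos rfl, mul_one]
  rw [e]

theorem rs (hSLF : S_SLF) (hCNT : S_CNT) (hDMT : S_DMT) (hPHI : S_PHI) (hVAR : S_VAR) : S_RS := by
  intro k hk δ hδ
  obtain ⟨r, rfl⟩ : ∃ r, k = r + 1 := ⟨k - 1, by omega⟩
  have hr : 1 ≤ r := by omega
  obtain ⟨c0, hc0, hV⟩ := hVAR (r + 1) (δ / 2) (by positivity)
  obtain ⟨η1, hη1, hC⟩ := hCNT (Fin (r + 1)) (c0 / 2) (by positivity)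
  obtain ⟨ε', hε', hD⟩ := hDMT (min η1 (δ / 2)) (by positivity)
  obtain ⟨η2, hη2, hS⟩ := hSLF (Fin (r + 1)) ε' hε'
  refine ⟨c0 / 2, min η1 η2, by positivity, by positivity, ?_⟩
  intro N _ hN hkN ν f hf hLF hδf
  obtain ⟨p1, p2, p3, p4, p5, p6⟩ := hPHI r N hr hN (by omega)
  have hν0 : ∀ a, 0 ≤ ν a := fun a => (hf a).1.trans (hf a).2
  have hLF1 : LF (fun (j : Fin (r + 1)) (x : Fin (r + 1) → ZMod N) => ν (Lf j x)) η1 :=
    fun T hT => (hLF T hT).trans (min_le_left _ _)
  have hLF2 : LF (fun (j : Fin (r + 1)) (x : Fin (r + 1) → ZMod N) => ν (Lf j x)) η2 :=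
    fun T hT => (hLF T hT).trans (min_le_right _ _)
  have h1 := cut_nu (ε' := ε') ν (hS (ZMod N) (fun j x => ν (Lf j x)) (fun j x => hν0 _)
    (fun j => Ind_Lf j ν) hLF2)
  have h2 := p6 (fun a => ν a - 1) ε' h1
  obtain ⟨g, hg, hg2⟩ := hD (ZMod N) (Phi r N) p1 p2 p3 p4 ν f hf h2
  have h3 := p5 (fun a => f a - g a) _ hg2
  have h4 : δ / 2 ≤ av g := by
    have h5 := hg2 _ p2
    simp only [mul_one] at h5
    rw [av_sub] at h5
    have h6 := (abs_le.1 h5).2
    have h7 := min_le_right η1 (δ / 2)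
    linarith
  have h5 := hV N g hg h4
  have h6 := hC (ZMod N) (fun j x => ν (Lf j x)) (fun j x => f (Lf j x)) (fun j x => g (Lf j x))
    (fun j => Ind_Lf j ν) (fun j => Ind_Lf j f) (fun j => Ind_Lf j g) hLF1
    (fun j x => hf _) (fun j x => hg _)
    (fun j u hu hu1 => (h3 j u hu hu1).trans (min_le_left _ _))
  rw [av_AP r N hr f, av_AP r N hr g] at h6
  have h7 := (abs_le.1 h6).1
  linarith

end Pool.Agent.Y727.PSP
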