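import Pool.Agent.Y727.PSP.Fc
import Pool.Agent.Y727.PSP.Rs
import Pool.Agent.Y674.PSP.CS
import Pool.Agent.Y317.PSP.SLF
import Pool.Agent.Y814.PSP.CNT
import Pool.Agent.Y500.PSP.Dmt
import Pool.Agent.Y46.PSP.Phi
import Pool.Agent.Y46.PSP.Var
import Pool.Agent.Y814.PSP.C1
import Pool.Agent.Y674.PSP.SEL
import Pool.Agent.Y394.PSP.LOC
import Pool.Agent.Y917.PSP.Maj
import Pool.Agent.Y79.PSP.MK
import Pool.Agent.Y79.PSP.PRMTop
import Pool.Agent.Y950.Z.Smo
import Pool.Agent.Y122.PSP.Bad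
import Pool.Agent.Y37.PSP.DAV
import Pool.Agent.Y37.PSP.PPD
import Pool.Agent.Y903.PSP.PSP

/-!
# Arithmetic progressions of pseudoprimes: all parts together
-/

set_option autoImplicit false

namespace Pool.Agent.Y727.PSP

/-- the relative Szemerédi theorem -/
theorem rs_all : S_RS :=
  have hslf := Pool.Agent.Y317.PSP.slf Pool.Agent.Y674.PSP.cs
  rs hslf (Pool.Agent.Y814.PSP.cnt hslf) Pool.Agent.Y500.PSP.DMT Pool.Agent.Y46.PSP.phi
    Pool.Agent.Y46.PSP.var

/-- the majorant satisfies the linear forms condition for most multipliers -/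
theorem mk_all : S_MK :=
  Pool.Agent.Y79.PSP.MK.mk (Pool.Agent.Y917.PSP.maj Pool.Agent.Y814.PSP.c1 Pool.Agent.Y674.PSP.sel
    Pool.Agent.Y394.PSP.LOC)

theorem prm_all : S_PRM := Pool.Agent.Y79.PSP.PRM.prm Pool.Agent.Y950.SMO.smo Pool.Agent.Y122.PSP.bad

theorem psp_all : S_PSP := Pool.Agent.Y903.PSP.psp Pool.Agent.Y37.PSP.dav Pool.Agent.Y37.PSP.ppd

/-- arithmetic progressions of `k` pseudoprimes -/
theorem fin_all : S_FIN := fin rs_all mk_all prm_all psp_all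

end Pool.Agent.Y727.PSP
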