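import Mathlib

/-!
# Numerical facts for the final assembly
-/

set_option autoImplicit false

open Filter

namespace Pool.Agent.Y727.PSP

theorem ev_pow (C : ℝ) (a b : ℕ) (h : a < b) : ∀ᶠ L : ℝ in atTop, C * L ^ a ≤ L ^ b := by
  filter_upwards [eventually_ge_atTop (max C 1)] with L hL
  have h1 : C ≤ L := (le_max_left _ _).trans hL
  have h2 : 1 ≤ L := (le_max_right _ _).trans hL
  calc C * L ^ a ≤ L * L ^ a := by gcongr
    _ = L ^ (a + 1) := by ring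
    _ ≤ L ^ b := pow_le_pow_right₀ h2 h

theorem ev_exp (C : ℝ) (a : ℕ) : ∀ᶠ x : ℝ in atTop, C * x ^ a ≤ Real.exp x := by
  have h := (Real.isLittleO_pow_exp_atTop (n := a)).bound (show (0 : ℝ) < 1 / (|C| + 1) by positivity)
  filter_upwards [h, eventually_ge_atTop (0 : ℝ)] with x hx hx0
  rw [Real.norm_of_nonneg (by positivity), Real.norm_of_nonneg (Real.exp_pos x).le, one_div,
    inv_mul_eq_div, le_div_iff₀ (by positivity)] at hx
  have h1 : C ≤ |C| + 1 := (le_abs_self C).trans (by linarith)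
  have h2 : 0 ≤ x ^ a := by positivity
  nlinarith

theorem ev_exps (C : ℝ) (a : ℕ) : ∀ᶠ L : ℝ in atTop, C * L ^ a ≤ Real.exp (Real.sqrt (L / 2)) := by
  have h1 : Tendsto (fun L : ℝ => Real.sqrt (L / 2)) atTop atTop :=
    Real.tendsto_sqrt_atTop.comp (tendsto_id.atTop_div_const (by norm_num))
  filter_upwards [h1.eventually (ev_exp (C * 2 ^ a) (2 * a)), eventually_ge_atTop (0 : ℝ)]
    with L hL hL0
  have h2 : Real.sqrt (L / 2) ^ (2 * a) = (L / 2) ^ a := by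
    rw [pow_mul, Real.sq_sqrt (by positivity)]
  rw [h2] at hL
  calc C * L ^ a = C * 2 ^ a * (L / 2) ^ a := by
        rw [mul_assoc, ← mul_pow]; congr 2; ring
    _ ≤ _ := hL

theorem ev_exp2 (C : ℝ) (a : ℕ) : ∀ᶠ L : ℝ in atTop,
    C * L ^ a * Real.exp (Real.sqrt L) ≤ Real.exp (L / 2) := by
  filter_upwards [Real.tendsto_sqrt_atTop.eventually (ev_exp C (2 * a)),
    eventually_ge_atTop (16 : ℝ)] with L hL hL0
  have h2 : Real.sqrt L ^ (2 * a) = L ^ a := by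
    rw [pow_mul, Real.sq_sqrt (by linarith)]
  rw [h2] at hL
  have h3 : 4 ≤ Real.sqrt L := Real.le_sqrt_of_sq_le (by linarith)
  have h4 : Real.sqrt L * Real.sqrt L = L := Real.mul_self_sqrt (by linarith)
  calc C * L ^ a * Real.exp (Real.sqrt L) ≤ Real.exp (Real.sqrt L) * Real.exp (Real.sqrt L) := by
        gcongr
    _ = Real.exp (Real.sqrt L + Real.sqrt L) := by rw [Real.exp_add]
    _ ≤ Real.exp (L / 2) := Real.exp_le_exp.2 (by nlinarith)

theorem nums (K0 B Bq k s0 T : ℕ) (A cR : ℝ) (hcR : 0 < cR)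
    (hBq : 4 * k * (B + 1) + 2 * (B + 1) + 10 ≤ Bq) : ∃ L0 : ℝ, ∀ L : ℝ, L0 ≤ L →
    2 ≤ L ∧ (k : ℝ) + 8 ≤ L ∧ 4 * (K0 * L) ^ B ≤ (L / 2) ^ (B + 1) ∧
    (4 : ℝ) ^ (s0 + 2) * L ^ (2 * (B + 1)) ≤ L ^ Bq ∧
    4 * L ^ (2 * Bq) * Real.exp (Real.sqrt L) ≤ Real.exp (L / 2) ∧
    s0 + 2 + (B + 1) * Real.log L + L ≤ Real.exp (Real.sqrt (L / 2)) ∧
    4 * (s0 + 2 + (B + 1) * Real.log L) ≤ 2 * Bq * Real.log L ∧
    (T : ℝ) ^ 2 ≤ 2 * Bq * Real.log L ∧
    (4 * L + 4 + k) * L ^ (4 * k * (B + 1)) < L ^ Bq ∧ 2 / L < cR ∧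
    A ≤ Real.exp (L / 2) := by
  apply eventually_atTop.1
  have hlog : ∀ C : ℝ, ∀ᶠ L : ℝ in atTop, C ≤ Real.log L := fun C =>
    Real.tendsto_log_atTop.eventually (eventually_ge_atTop C)
  have hBq0 : (10 : ℝ) ≤ Bq := by
    have : 10 ≤ Bq := by omega
    exact_mod_cast this
  have hBq1 : (2 : ℝ) * (B + 1) + 10 ≤ Bq := by
    have : 2 * (B + 1) + 10 ≤ Bq := by
      have : 0 ≤ 4 * k * (B + 1) := Nat.zero_le _
      omega
    exact_mod_cast this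
  filter_upwards [eventually_ge_atTop (2 : ℝ), eventually_ge_atTop ((k : ℝ) + 8),
    ev_pow (4 * K0 ^ B * 2 ^ (B + 1)) B (B + 1) (by omega),
    ev_pow ((4 : ℝ) ^ (s0 + 2)) (2 * (B + 1)) Bq (by
      have : 0 ≤ 4 * k * (B + 1) := Nat.zero_le _
      omega),
    ev_exp2 4 (2 * Bq), ev_exps (s0 + 4 + B) 1, hlog (s0 + 2), hlog ((T : ℝ) ^ 2),
    ev_pow 1 (4 * k * (B + 1) + 2) Bq (by omega), eventually_gt_atTop (2 / cR),
    eventually_ge_atTop (2 * Real.log (|A| + 1))]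
    with L h1 h2 h3 h4 h5 h6 h7 h8 h9 h10 h11
  have hL0 : 0 < L := by linarith
  have hlogL : Real.log L ≤ L := (Real.log_le_sub_one_of_pos hL0).trans (by linarith)
  have hlog0 : 0 ≤ Real.log L := Real.log_nonneg (by linarith)
  refine ⟨h1, h2, ?_, h4, h5, ?_, ?_, ?_, ?_, ?_, ?_⟩
  · rw [mul_pow, div_pow, le_div_iff₀ (by positivity)]
    calc 4 * ((K0 : ℝ) ^ B * L ^ B) * 2 ^ (B + 1) = 4 * K0 ^ B * 2 ^ (B + 1) * L ^ B := by ring
      _ ≤ _ := h3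
  · refine le_trans ?_ h6
    rw [pow_one]
    have : (s0 : ℝ) + 2 ≤ (s0 + 2) * L := by
      nlinarith [(Nat.cast_nonneg s0 : (0 : ℝ) ≤ s0)]
    have h12 : ((B : ℝ) + 1) * Real.log L ≤ (B + 1) * L := by gcongr
    nlinarith
  · nlinarith
  · calc (T : ℝ) ^ 2 ≤ Real.log L := h8
      _ ≤ 2 * Bq * Real.log L := by nlinarith
  · refine lt_of_lt_of_le ?_ h9
    rw [one_mul, pow_add]
    rw [mul_comm]
    have h13 : 4 * L + 4 + k < L ^ 2 := by nlinarith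
    gcongr
  · rw [div_lt_iff₀ hcR] at h10
    rw [div_lt_iff₀ hL0]
    linarith
  · have h14 : |A| + 1 ≤ Real.exp (L / 2) := by
      rw [← Real.log_le_iff_le_exp (by positivity)]
      linarith
    exact (le_abs_self A).trans (by linarith)

end Pool.Agent.Y727.PSP
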