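import Pool.Agent.Y727.PSP.Fa
import Pool.Agent.Y727.PSP.Fn

/-!
# Steps of the assembly of `S_FIN`
-/

set_option autoImplicit false

open Finset

namespace Pool.Agent.Y727.PSP

open Pool.Agent.H602R3.DHJ

theorem LF_mono {J V : Type} [Fintype J] [DecidableEq J] [Fintype V] {ν : J → (J → V) → ℝ}
    {η η' : ℝ} (h : LF ν η) (h2 : η ≤ η') : LF ν η' := fun T hT => (h T hT).trans h2

theorem prim_le (s0 N B : ℕ) (L : ℝ) (hL : 2 ≤ L) (hN : 1 ≤ N) (hNL : (N : ℝ) ≤ (L / 2) ^ (B + 1)) :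
    ((s0 + ⌈Real.log N⌉₊ : ℕ) : ℝ) ≤ s0 + 1 + (B + 1) * Real.log L ∧
    ((primorial (s0 + ⌈Real.log N⌉₊) : ℕ) : ℝ) ≤ (4 : ℝ) ^ (s0 + 1) * L ^ (2 * (B + 1)) := by
  have hN0 : (0 : ℝ) < N := by exact_mod_cast hN
  have hL0 : 0 < L := by linarith
  have h1 : Real.log N ≤ (B + 1) * Real.log L := by
    calc Real.log N ≤ Real.log ((L / 2) ^ (B + 1)) := Real.log_le_log hN0 hNL
      _ ≤ Real.log (L ^ (B + 1)) := by
          apply Real.log_le_log (by positivity)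
          gcongr
          linarith
      _ = (B + 1) * Real.log L := by rw [Real.log_pow]; push_cast; ring
  have h2 : (⌈Real.log N⌉₊ : ℝ) ≤ (B + 1) * Real.log L + 1 :=
    ((Nat.ceil_lt_add_one (Real.log_nonneg (by exact_mod_cast hN))).le).trans (by linarith)
  have h3 : ((s0 + ⌈Real.log N⌉₊ : ℕ) : ℝ) ≤ s0 + 1 + (B + 1) * Real.log L := by
    push_cast; linarith
  refine ⟨h3, ?_⟩
  have hlog4 : Real.log 4 ≤ 2 := by
    have : Real.log 4 = 2 * Real.log 2 := by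
      rw [show (4 : ℝ) = 2 ^ 2 by norm_num, Real.log_pow]; push_cast; ring
    rw [this]
    linarith [Real.log_two_lt_d9]
  have hlog40 : 0 < Real.log 4 := Real.log_pos (by norm_num)
  have hlL : 0 ≤ Real.log L := Real.log_nonneg (by linarith)
  calc ((primorial (s0 + ⌈Real.log N⌉₊) : ℕ) : ℝ) ≤ ((4 ^ (s0 + ⌈Real.log N⌉₊) : ℕ) : ℝ) := by
        exact_mod_cast primorial_le_four_pow _
    _ = Real.exp (((s0 + ⌈Real.log N⌉₊ : ℕ) : ℝ) * Real.log 4) := by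
        rw [mul_comm, Real.exp_mul, Real.exp_log (by norm_num), Real.rpow_natCast]; push_cast; rfl
    _ ≤ Real.exp ((s0 + 1 + (B + 1) * Real.log L) * Real.log 4) := by
        apply Real.exp_le_exp.2
        gcongr
    _ = Real.exp (((s0 + 1 : ℕ) : ℝ) * Real.log 4) *
        Real.exp ((B + 1) * Real.log L * Real.log 4) := by
        rw [← Real.exp_add]; push_cast; ring_nf
    _ ≤ Real.exp (((s0 + 1 : ℕ) : ℝ) * Real.log 4) *
        Real.exp ((B + 1) * Real.log L * 2) := by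
        gcongr
    _ = (4 : ℝ) ^ (s0 + 1) * L ^ (2 * (B + 1)) := by
        congr 1
        · rw [mul_comm, Real.exp_mul, Real.exp_log (by norm_num), Real.rpow_natCast]
        · rw [show ((B : ℝ) + 1) * Real.log L * 2 = Real.log L * ((2 * (B + 1) : ℕ) : ℝ) by
            push_cast; ring, Real.exp_mul, Real.exp_log hL0, Real.rpow_natCast]

/-- the prime `N` -/
theorem exN (k K0 B : ℕ) (L : ℝ) (hK0 : 1 ≤ K0) (hB1 : 1 ≤ B) (f1 : 2 ≤ L) (f2 : (k : ℝ) + 8 ≤ L)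
    (f3 : 4 * (K0 * L) ^ B ≤ (L / 2) ^ (B + 1)) :
    ∃ N : ℕ, N.Prime ∧ k + 8 < N ∧ ((K0 : ℝ) * L) ^ B ≤ N ∧ (N : ℝ) ≤ (L / 2) ^ (B + 1) := by
  have hK0' : (1 : ℝ) ≤ K0 := by exact_mod_cast hK0
  have hKL : 1 ≤ (K0 : ℝ) * L := by nlinarith
  have hKLB : L ≤ ((K0 : ℝ) * L) ^ B := by
    calc L ≤ K0 * L := by nlinarith
      _ = ((K0 : ℝ) * L) ^ 1 := (pow_one _).symm
      _ ≤ ((K0 : ℝ) * L) ^ B := pow_le_pow_right₀ hKL hB1
  have hY1 : ((K0 : ℝ) * L) ^ B ≤ (⌈((K0 : ℝ) * L) ^ B⌉₊ : ℕ) := Nat.le_ceil _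
  have hY2 : ((⌈((K0 : ℝ) * L) ^ B⌉₊ : ℕ) : ℝ) ≤ ((K0 : ℝ) * L) ^ B + 1 :=
    (Nat.ceil_lt_add_one (by positivity)).le
  generalize ⌈((K0 : ℝ) * L) ^ B⌉₊ = Y at hY1 hY2
  have hY0 : Y ≠ 0 := by
    rintro rfl
    push_cast at hY1
    linarith
  obtain ⟨N, hNp, hN1, hN2⟩ := Nat.exists_prime_lt_and_le_two_mul Y hY0
  have hN1' : (Y : ℝ) < N := by exact_mod_cast hN1
  have hN2' : (N : ℝ) ≤ 2 * Y := by exact_mod_cast hN2
  have hkN' : (k : ℝ) + 8 < N := by linarith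
  refine ⟨N, hNp, by exact_mod_cast hkN', by linarith, ?_⟩
  refine le_trans ?_ f3
  linarith

/-- the lower end of the scales -/
theorem exXl (z : ℕ) (hz : 1 ≤ z) :
    Real.exp (Real.log z / 2) * Real.exp (Real.log z / 2) = z ∧
    Real.exp (Real.log z / 2) < (Nat.sqrt z + 1 : ℕ) ∧
    ((Nat.sqrt z + 1 : ℕ) : ℝ) ≤ 2 * Real.exp (Real.log z / 2) := by
  have hz0 : (0 : ℝ) < z := by exact_mod_cast hz
  have hexp3 : Real.exp (Real.log z / 2) * Real.exp (Real.log z / 2) = z := by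
    rw [← Real.exp_add, add_halves, Real.exp_log hz0]
  have hE : 1 ≤ Real.exp (Real.log z / 2) := Real.one_le_exp (by
    have := Real.log_nonneg (show (1 : ℝ) ≤ z by exact_mod_cast hz)
    linarith)
  refine ⟨hexp3, ?_, ?_⟩
  · have e1 : z < (Nat.sqrt z + 1) * (Nat.sqrt z + 1) := Nat.lt_succ_sqrt z
    have e2 : (z : ℝ) < ((Nat.sqrt z + 1 : ℕ) : ℝ) * ((Nat.sqrt z + 1 : ℕ) : ℝ) := by
      exact_mod_cast e1
    rw [← hexp3] at e2
    by_contra hcon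
    push Not at hcon
    have := mul_le_mul hcon hcon (Nat.cast_nonneg _) (by linarith)
    linarith
  · have e1 : Nat.sqrt z * Nat.sqrt z ≤ z := Nat.sqrt_le z
    have e2 : ((Nat.sqrt z : ℕ) : ℝ) * Nat.sqrt z ≤
        Real.exp (Real.log z / 2) * Real.exp (Real.log z / 2) := by
      rw [hexp3]; exact_mod_cast e1
    have e4 : ((Nat.sqrt z : ℕ) : ℝ) ≤ Real.exp (Real.log z / 2) := by
      by_contra hcon
      push Not at hcon
      have := mul_lt_mul hcon hcon.le (by linarith) (by linarith)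
      linarith
    push_cast; linarith

/-- the number of scales -/
theorem nlog (z K0 : ℕ) (hz : 1 ≤ z) :
    ((Nat.log 2 (z ^ K0) : ℕ) : ℝ) ≤ 3 / 2 * (K0 * Real.log z) := by
  have hz1' : z ^ K0 ≠ 0 := pow_ne_zero _ (by omega)
  have e2 : 2 ^ Nat.log 2 (z ^ K0) ≤ z ^ K0 := Nat.pow_log_le_self 2 hz1'
  have e3 : (2 : ℝ) ^ Nat.log 2 (z ^ K0) ≤ (z : ℝ) ^ K0 := by exact_mod_cast e2
  have e4 := Real.log_le_log (by positivity) e3
  rw [Real.log_pow, Real.log_pow] at e4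
  have e5 : (2 : ℝ) / 3 ≤ Real.log 2 := by linarith [Real.log_two_gt_d9]
  have e6 : ((Nat.log 2 (z ^ K0) : ℕ) : ℝ) * (2 / 3) ≤ (Nat.log 2 (z ^ K0) : ℕ) * Real.log 2 := by
    gcongr
  linarith

/-- the number of prime factors of `w` -/
theorem omega_ge (Λ Bq ω : ℕ) (L : ℝ) (hL : 1 ≤ L) (hΛ : 1 ≤ Λ)
    (hwΛ : L ^ Bq * Λ ≤ 2 ^ (ω / 2)) : 2 * Bq * Real.log L ≤ ω := by
  have hΛ1 : (1 : ℝ) ≤ Λ := by exact_mod_cast hΛ
  have hp : 0 < L ^ Bq := by positivity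
  have e1 : L ^ Bq ≤ (2 : ℝ) ^ (ω / 2) := by
    refine le_trans ?_ hwΛ
    nlinarith
  have e2 : Real.log (L ^ Bq) ≤ Real.log ((2 : ℝ) ^ (ω / 2)) :=
    Real.log_le_log (by positivity) e1
  rw [Real.log_pow, Real.log_pow] at e2
  have e3 : (((ω / 2 : ℕ) : ℕ) : ℝ) ≤ ω / 2 := Nat.cast_div_le
  have e4 : Real.log 2 ≤ 1 := by linarith [Real.log_two_lt_d9]
  have e5 : 0 < Real.log 2 := Real.log_pos (by norm_num)
  have e6 : ((ω / 2 : ℕ) : ℝ) * Real.log 2 ≤ (ω / 2) * 1 := by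
    gcongr
  linarith

/-- the multipliers divisible by many prime factors of `w` -/
theorem badcard (S : Finset ℕ) (hS : ∀ p ∈ S, 1 ≤ p) (X T : ℕ) (η : ℝ) (hη : 0 < η) (hT : 1 ≤ T)
    (hT16 : 16 / η ≤ T) (hωT : (T : ℝ) ^ 2 ≤ S.card) (h8X : 8 / η ≤ X) :
    (((Ioc X (2 * X)).filter (fun K => S.card < 4 * (S.filter (fun p => p ∣ K)).card)).card : ℝ) ≤
      η * X := by
  have hT0 : (0 : ℝ) < T := by exact_mod_cast hT
  have hω0 : (0 : ℝ) < S.card := lt_of_lt_of_le (by positivity) hωT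
  have e1 := bad2 S hS X T hT
  refine le_of_mul_le_mul_right (e1.trans ?_) hω0
  generalize (S.card : ℝ) = ω at *
  have e2 : (T : ℝ) ≤ ω / T := by
    rw [le_div_iff₀ hT0]
    nlinarith
  have e3 : (ω : ℝ) / T ≤ ω * (η / 16) := by
    rw [div_le_iff₀ hT0]
    have : 1 ≤ η / 16 * T := by
      rw [div_le_iff₀ hη] at hT16
      linarith
    calc (ω : ℝ) = ω * 1 := (mul_one _).symm
      _ ≤ ω * (η / 16 * T) := by gcongr
      _ = _ := by ring
  have e4 : 8 ≤ η * X := by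
    rw [div_le_iff₀ hη] at h8X
    linarith
  calc 4 * (X * (T + ω / T) + ω) ≤ 4 * (X * (ω * (η / 16) + ω * (η / 16)) + ω : ℝ) := by
        gcongr
        linarith
    _ = (η * X / 2 + 4) * ω := by ring
    _ ≤ η * X * ω := by gcongr; linarith

/-- the modulus is admissible -/
theorem okW (B s0 X N S w : ℕ) (L : ℝ) (hw1 : 1 ≤ w) (hN : 2 ≤ N) (hSd : S = s0 + ⌈Real.log N⌉₊)
    (hS1 : (S : ℝ) ≤ s0 + 1 + (B + 1) * Real.log L) (hL : 2 ≤ L)
    (hNL : (N : ℝ) ≤ (L / 2) ^ (B + 1)) (hlX : L / 2 ≤ Real.log X)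
    (hWX : ((primorial S * w : ℕ) : ℝ) ≤ X) (hwp : ∀ p : ℕ, p.Prime → p ∣ w → (p : ℝ) ≤ L)
    (f6 : s0 + 2 + (B + 1) * Real.log L + L ≤ Real.exp (Real.sqrt (L / 2))) :
    Ok (B + 1) s0 X (primorial S * w) N := by
  have hlogL : 0 ≤ Real.log L := Real.log_nonneg (by linarith)
  refine ⟨Nat.mul_pos (primorial_pos S) hw1, by exact_mod_cast hWX, hN, ?_, ?_, ?_, ?_⟩
  · exact hNL.trans (by gcongr)
  · intro p hp hps
    exact Dvd.dvd.mul_right (hp.dvd_primorial_iff.2 (by omega)) _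
  · intro p hp hps
    refine Dvd.dvd.mul_right (hp.dvd_primorial_iff.2 ?_) _
    have : (p : ℝ) ≤ ⌈Real.log N⌉₊ := hps.trans (Nat.le_ceil _)
    have : p ≤ ⌈Real.log N⌉₊ := by exact_mod_cast this
    omega
  · intro p hp hpW
    have hsq2 : Real.exp (Real.sqrt (L / 2)) ≤ Real.exp (Real.sqrt (Real.log X)) := by
      apply Real.exp_le_exp.2
      exact Real.sqrt_le_sqrt hlX
    refine le_trans ?_ hsq2
    refine le_trans ?_ f6
    rcases (Nat.Prime.dvd_mul hp).1 hpW with h1 | h1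
    · have h2 : p ≤ S := hp.dvd_primorial_iff.1 h1
      have h3 : (p : ℝ) ≤ S := by exact_mod_cast h2
      linarith
    · have h3 := hwp p hp h1
      have h4 : 0 ≤ ((B : ℝ) + 1) * Real.log L := by positivity
      have h5 := (Nat.cast_nonneg s0 : (0 : ℝ) ≤ s0)
      linarith

/-- many prime factors of `w` do not divide `K * P` -/
theorem manyp (w K S ω : ℕ) (hω : ω = w.primeFactors.card)
    (hK : ¬ w.primeFactors.card < 4 * (w.primeFactors.filter (fun p => p ∣ K)).card)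
    (hS : 4 * S ≤ ω) :
    ω / 2 ≤ (w.primeFactors.filter (fun p => ¬ p ∣ K * primorial S)).card := by
  have h1 : (w.primeFactors.filter (fun p => p ∣ K * primorial S)).card ≤
      (w.primeFactors.filter (fun p => p ∣ K)).card + S := by
    have hsub : w.primeFactors.filter (fun p => p ∣ K * primorial S) ⊆
        w.primeFactors.filter (fun p => p ∣ K) ∪ Icc 1 S := by
      intro p hp
      rw [mem_filter] at hp
      have hpp := Nat.prime_of_mem_primeFactors hp.1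
      rw [mem_union, mem_filter, mem_Icc]
      rcases (Nat.Prime.dvd_mul hpp).1 hp.2 with h | h
      · exact Or.inl ⟨hp.1, h⟩
      · exact Or.inr ⟨hpp.one_lt.le, hpp.dvd_primorial_iff.1 h⟩
    refine (card_le_card hsub).trans ((card_union_le _ _).trans ?_)
    rw [Nat.card_Icc]
    omega
  have h2 := card_filter_add_card_filter_not (s := w.primeFactors)
    (p := fun p => p ∣ K * primorial S)
  omega

/-- the inequality of `S_PSP` -/
theorem pspineq (k N a r w Λ B Bq ω M : ℕ) (L : ℝ) (hL : 2 ≤ L) (hΛ : 1 ≤ Λ)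
    (hN : (N : ℝ) ≤ (L / 2) ^ (B + 1))
    (hv : ∀ j < k, a + j * r ≤ N) (hw1 : 1 ≤ w) (hwz : (w : ℝ) ≤ Real.exp (Real.sqrt L))
    (f9 : (4 * L + 4 + k) * L ^ (4 * k * (B + 1)) < L ^ Bq)
    (hwΛ : L ^ Bq * Λ ≤ 2 ^ (ω / 2)) (hM : ω / 2 ≤ M) :
    (∏ j ∈ range k, (a + j * r)) ^ 4 * Λ * (2 * (Nat.log 2 w + 2)) + k < 2 ^ M := by
  have hL0 : 0 < L := by linarith
  have hΛ1 : (1 : ℝ) ≤ Λ := by exact_mod_cast hΛ
  have h1 : ((∏ j ∈ range k, (a + j * r) : ℕ) : ℝ) ≤ L ^ (k * (B + 1)) := by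
    rw [Nat.cast_prod]
    calc ∏ j ∈ range k, ((a + j * r : ℕ) : ℝ) ≤ ∏ j ∈ range k, L ^ (B + 1) := by
          apply prod_le_prod
          · intro j _; positivity
          · intro j hj
            calc ((a + j * r : ℕ) : ℝ) ≤ N := by exact_mod_cast hv j (mem_range.1 hj)
              _ ≤ (L / 2) ^ (B + 1) := hN
              _ ≤ L ^ (B + 1) := by gcongr; linarith
      _ = L ^ (k * (B + 1)) := by rw [prod_const, card_range, ← pow_mul, mul_comm]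
  have h2 : ((Nat.log 2 w : ℕ) : ℝ) ≤ 2 * L := by
    have e1 := nlog w 1 hw1
    rw [pow_one] at e1
    have hw0 : (0 : ℝ) < w := by exact_mod_cast hw1
    have e2 : Real.log w ≤ Real.sqrt L := by
      rw [Real.log_le_iff_le_exp hw0]; exact hwz
    have e3 : Real.sqrt L ≤ L := by
      rw [Real.sqrt_le_left hL0.le]; nlinarith
    push_cast at e1
    linarith
  have h3 : ((∏ j ∈ range k, (a + j * r) : ℕ) : ℝ) ^ 4 ≤ L ^ (4 * k * (B + 1)) := by
    calc ((∏ j ∈ range k, (a + j * r) : ℕ) : ℝ) ^ 4 ≤ (L ^ (k * (B + 1))) ^ 4 := by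
          apply pow_le_pow_left₀ (Nat.cast_nonneg _) h1
      _ = L ^ (4 * k * (B + 1)) := by rw [← pow_mul]; congr 1; ring
  generalize (∏ j ∈ range k, (a + j * r)) = U at h1 h3
  have h4 : (((U ^ 4 * Λ * (2 * (Nat.log 2 w + 2)) + k : ℕ)) : ℝ) < ((2 ^ M : ℕ) : ℝ) := by
    have hE : (1 : ℝ) ≤ L ^ (4 * k * (B + 1)) := one_le_pow₀ (by linarith)
    have hE2 : (1 : ℝ) ≤ L ^ (4 * k * (B + 1)) * Λ := one_le_mul_of_one_le_of_one_le hE hΛ1
    push_cast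
    calc (U : ℝ) ^ 4 * Λ * (2 * ((Nat.log 2 w : ℕ) + 2)) + k ≤
        L ^ (4 * k * (B + 1)) * Λ * (2 * (2 * L + 2)) + k * (L ^ (4 * k * (B + 1)) * Λ) := by
          apply add_le_add
          · gcongr
          · nlinarith [(Nat.cast_nonneg k : (0 : ℝ) ≤ k)]
      _ = ((4 * L + 4 + k) * L ^ (4 * k * (B + 1))) * Λ := by ring
      _ < L ^ Bq * Λ := by gcongr
      _ ≤ 2 ^ (ω / 2) := hwΛ
      _ ≤ 2 ^ M := pow_le_pow_right₀ (by norm_num) hM
  exact_mod_cast h4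

end Pool.Agent.Y727.PSP
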