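import Pool.Agent.Y727.PSP.Stm

/-!
# Few `K` are divisible by many primes of a given set
-/

set_option autoImplicit false

open Finset

namespace Pool.Agent.Y727.PSP

theorem card_mult (X p : ℕ) (hp : 1 ≤ p) :
    (((Ioc X (2 * X)).filter (fun K => p ∣ K)).card : ℝ) ≤ X / p + 1 := by
  have h1 : ((Ioc X (2 * X)).filter (fun K => p ∣ K)).card = 2 * X / p - X / p := by
    have e : (Ioc 0 (2 * X)).filter (fun K => p ∣ K) =
        (Ioc 0 X).filter (fun K => p ∣ K) ∪ (Ioc X (2 * X)).filter (fun K => p ∣ K) := by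
      rw [← filter_union]
      congr 1
      ext x
      rw [mem_union, mem_Ioc, mem_Ioc, mem_Ioc]
      omega
    have h2 := Nat.Ioc_filter_dvd_card_eq_div (2 * X) p
    have h3 := Nat.Ioc_filter_dvd_card_eq_div X p
    rw [e, card_union_of_disjoint, h3] at h2
    · omega
    · rw [disjoint_left]
      intro x hx hy
      rw [mem_filter, mem_Ioc] at hx hy
      omega
  have hp0 : (0 : ℝ) < p := by exact_mod_cast hp
  rw [h1]
  have h4 : 2 * X / p ≤ X / p + X / p + 1 := by
    have h5 := Nat.div_add_mod X p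
    have h6 := Nat.mod_lt X hp
    have h7 : 2 * X < p * (X / p + X / p + 2) := by nlinarith
    have h8 : 2 * X / p < X / p + X / p + 2 := Nat.div_lt_of_lt_mul h7
    exact Nat.lt_succ_iff.1 h8
  have h5 : ((2 * X / p - X / p : ℕ) : ℝ) ≤ ((X / p + 1 : ℕ) : ℝ) := by
    rw [Nat.cast_le]
    generalize 2 * X / p = a at h4
    generalize X / p = b at h4
    omega
  refine h5.trans ?_
  push_cast
  have := Nat.cast_div_le (α := ℝ) (m := X) (n := p)
  linarith

theorem sum_inv_le (S : Finset ℕ) (hS : ∀ p ∈ S, 1 ≤ p) (T : ℕ) (hT : 1 ≤ T) :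
    ∑ p ∈ S, (1 : ℝ) / p ≤ T + S.card / T := by
  classical
  have hT0 : (0 : ℝ) < T := by exact_mod_cast hT
  rw [← sum_filter_add_sum_filter_not S (fun p => p ≤ T)]
  apply add_le_add
  · have h1 : ∀ p ∈ S.filter (fun p => p ≤ T), (1 : ℝ) / p ≤ 1 := by
      intro p hp
      have h2 : (1 : ℝ) ≤ p := by exact_mod_cast hS p (mem_filter.1 hp).1
      rw [div_le_one (by linarith)]
      exact h2
    refine (sum_le_sum h1).trans ?_
    rw [sum_const, nsmul_eq_mul, mul_one]
    have h2 : S.filter (fun p => p ≤ T) ⊆ Icc 1 T := by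
      intro p hp
      rw [mem_filter] at hp
      rw [mem_Icc]
      exact ⟨hS p hp.1, hp.2⟩
    have h3 := card_le_card h2
    rw [Nat.card_Icc] at h3
    have h4 : (S.filter (fun p => p ≤ T)).card ≤ T := by omega
    exact_mod_cast h4
  · have h1 : ∀ p ∈ S.filter (fun p => ¬ p ≤ T), (1 : ℝ) / p ≤ 1 / T := by
      intro p hp
      have h2 : (T : ℝ) ≤ p := by exact_mod_cast (not_le.1 (mem_filter.1 hp).2).le
      exact one_div_le_one_div_of_le hT0 h2
    refine (sum_le_sum h1).trans ?_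
    rw [sum_const, nsmul_eq_mul, mul_one_div]
    apply div_le_div_of_nonneg_right _ hT0.le
    exact_mod_cast card_filter_le _ _

open Classical in
theorem bad2 (S : Finset ℕ) (hS : ∀ p ∈ S, 1 ≤ p) (X T : ℕ) (hT : 1 ≤ T) :
    (((Ioc X (2 * X)).filter (fun K => S.card < 4 * (S.filter (fun p => p ∣ K)).card)).card : ℝ) *
      S.card ≤ 4 * (X * (T + S.card / T) + S.card) := by
  set B := (Ioc X (2 * X)).filter (fun K => S.card < 4 * (S.filter (fun p => p ∣ K)).card) with hB
  have h1 : ∑ K ∈ Ioc X (2 * X), ((S.filter (fun p => p ∣ K)).card : ℝ) =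
      ∑ p ∈ S, (((Ioc X (2 * X)).filter (fun K => p ∣ K)).card : ℝ) := by
    have e1 : ∀ K, ((S.filter (fun p => p ∣ K)).card : ℝ) = ∑ p ∈ S, if p ∣ K then 1 else 0 := by
      intro K
      rw [← sum_filter, sum_const, nsmul_eq_mul, mul_one]
    have e2 : ∀ p, (((Ioc X (2 * X)).filter (fun K => p ∣ K)).card : ℝ) =
        ∑ K ∈ Ioc X (2 * X), if p ∣ K then 1 else 0 := by
      intro p
      rw [← sum_filter, sum_const, nsmul_eq_mul, mul_one]
    rw [sum_congr rfl fun K _ => e1 K, sum_congr rfl fun p _ => e2 p, sum_comm]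
  have h2 : ∑ p ∈ S, (((Ioc X (2 * X)).filter (fun K => p ∣ K)).card : ℝ) ≤
      X * (T + S.card / T) + S.card := by
    calc ∑ p ∈ S, (((Ioc X (2 * X)).filter (fun K => p ∣ K)).card : ℝ)
        ≤ ∑ p ∈ S, ((X : ℝ) / p + 1) := sum_le_sum fun p hp => card_mult X p (hS p hp)
      _ = X * ∑ p ∈ S, (1 : ℝ) / p + S.card := by
          rw [sum_add_distrib, mul_sum, sum_const, nsmul_eq_mul, mul_one]
          congr 1
          exact sum_congr rfl fun p _ => by rw [mul_one_div]
      _ ≤ X * (T + S.card / T) + S.card := by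
          have := sum_inv_le S hS T hT
          gcongr
  have h3 : (B.card : ℝ) * S.card ≤ 4 * ∑ K ∈ Ioc X (2 * X), ((S.filter (fun p => p ∣ K)).card : ℝ) := by
    calc (B.card : ℝ) * S.card = ∑ _K ∈ B, (S.card : ℝ) := by rw [sum_const, nsmul_eq_mul]
      _ ≤ ∑ K ∈ B, 4 * ((S.filter (fun p => p ∣ K)).card : ℝ) := by
          apply sum_le_sum
          intro K hK
          rw [hB, mem_filter] at hK
          exact_mod_cast hK.2.le
      _ = 4 * ∑ K ∈ B, ((S.filter (fun p => p ∣ K)).card : ℝ) := by rw [mul_sum]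
      _ ≤ 4 * ∑ K ∈ Ioc X (2 * X), ((S.filter (fun p => p ∣ K)).card : ℝ) := by
          apply mul_le_mul_of_nonneg_left _ (by norm_num)
          exact sum_le_sum_of_subset_of_nonneg (filter_subset _ _) fun _ _ _ => by positivity
  linarith

end Pool.Agent.Y727.PSP
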