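import Pool.Agent.Y727.PSP.Stm

/-!
# A dyadic pigeonhole for the primes `1 + K W u`
-/

set_option autoImplicit false

open Finset

namespace Pool.Agent.Y727.PSP

theorem card_cop (a b : ℕ) :
    ((range (a * b)).filter (Nat.Coprime a)).card = Nat.totient a * b := by
  induction b with
  | zero => simp
  | succ b ih =>
    have e : (range (a * (b + 1))).filter (Nat.Coprime a) =
        (range (a * b)).filter (Nat.Coprime a) ∪ (Ico (a * b) (a * b + a)).filter (Nat.Coprime a) := by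
      rw [← filter_union]
      congr 1
      ext x
      rw [mem_union, mem_range, mem_range, mem_Ico, mul_add, mul_one]
      omega
    rw [e, card_union_of_disjoint, ih, Nat.filter_coprime_Ico_eq_totient]
    · ring
    · rw [disjoint_left]
      intro x hx hy
      rw [mem_filter, mem_range] at hx
      rw [mem_filter, mem_Ico] at hy
      omega

theorem totient_mul_le' (a b : ℕ) : Nat.totient (a * b) ≤ Nat.totient a * b := by
  rw [← card_cop a b, Nat.totient_eq_card_coprime]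
  apply card_le_card
  intro x hx
  rw [mem_filter] at hx ⊢
  exact ⟨hx.1, Nat.Coprime.coprime_dvd_left (dvd_mul_right a b) hx.2⟩

/-- the number of `K ∈ (X, 2X]` with `1 + K W u` prime -/
def aK (W X u : ℕ) : ℕ := ((Ioc X (2 * X)).filter (fun K => (1 + K * W * u).Prime)).card

/-- the dyadic decomposition of the sum of `1/p` over the primes `p ≡ 1 (mod W u)` -/
theorem dy_one (z Z W u Xl n : ℕ) (hW : 1 ≤ W) (hu : 1 ≤ u) (hX : 1 ≤ Xl) (hz : 2 * Xl * (W * u) ≤ z)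
    (hZ : Z < 2 ^ n) :
    (W * u : ℝ) * ∑ p ∈ (Ioc z Z).filter (fun p => p.Prime ∧ p ≡ 1 [MOD W * u]), (1 : ℝ) / p ≤
      ∑ i ∈ (range n).filter (fun i => Xl ≤ 2 ^ i ∧ 2 ^ i ≤ Z), (aK W (2 ^ i) u : ℝ) / 2 ^ i := by
  classical
  set q := W * u with hq
  have hq1 : 1 ≤ q := Nat.mul_pos hW hu
  have hq0 : (0 : ℝ) < q := by exact_mod_cast hq1
  set S := (Ioc z Z).filter (fun p => p.Prime ∧ p ≡ 1 [MOD q]) with hS
  -- the quotient and its dyadic index
  set κ : ℕ → ℕ := fun p => (p - 1) / q with hκ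
  set ι : ℕ → ℕ := fun p => Nat.log 2 (κ p - 1) with hι
  have hfact : ∀ p ∈ S, p.Prime ∧ p = 1 + κ p * q ∧ 2 * Xl ≤ κ p ∧ κ p ≤ Z := by
    intro p hp
    rw [hS, mem_filter, mem_Ioc] at hp
    obtain ⟨⟨h1, h2⟩, h3, h4⟩ := hp
    have h5 : q ∣ p - 1 := (Nat.modEq_iff_dvd' h3.one_lt.le).1 h4.symm
    have h6 : κ p * q = p - 1 := Nat.div_mul_cancel h5
    have h7 := h3.one_lt
    refine ⟨h3, by omega, ?_, ?_⟩
    · by_contra hcon
      have h8 : κ p + 1 ≤ 2 * Xl := by omega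
      have h9 : (κ p + 1) * q ≤ 2 * Xl * q := Nat.mul_le_mul_right _ h8
      have h10 : (κ p + 1) * q = κ p * q + q := by ring
      omega
    · have h8 : κ p ≤ κ p * q := Nat.le_mul_of_pos_right _ hq1
      omega
  have hidx : ∀ p ∈ S, 2 ^ ι p < κ p ∧ κ p ≤ 2 * 2 ^ ι p := by
    intro p hp
    obtain ⟨h1, h2, h3, h4⟩ := hfact p hp
    have h5 : κ p - 1 ≠ 0 := by omega
    have h6 : 2 ^ ι p ≤ κ p - 1 := Nat.pow_log_le_self 2 h5
    have h7 : κ p - 1 < 2 ^ (ι p + 1) := Nat.lt_pow_succ_log_self (by norm_num) _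
    rw [pow_succ] at h7
    omega
  have hmaps : ∀ p ∈ S, ι p ∈ (range n).filter (fun i => Xl ≤ 2 ^ i ∧ 2 ^ i ≤ Z) := by
    intro p hp
    obtain ⟨h1, h2, h3, h4⟩ := hfact p hp
    obtain ⟨h5, h6⟩ := hidx p hp
    rw [mem_filter, mem_range]
    refine ⟨?_, by omega, by omega⟩
    by_contra hcon
    have : 2 ^ n ≤ 2 ^ ι p := Nat.pow_le_pow_right (by norm_num) (not_lt.1 hcon)
    omega
  have e1 : ((W * u : ℕ) : ℝ) * ∑ p ∈ S, (1 : ℝ) / p = ∑ p ∈ S, (q : ℝ) / p := by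
    rw [mul_sum]
    exact sum_congr rfl fun p _ => by rw [mul_one_div]
  have e2 : (W * u : ℝ) = ((W * u : ℕ) : ℝ) := by push_cast; ring
  rw [e2, e1, ← sum_fiberwise_of_maps_to hmaps]
  apply sum_le_sum
  intro i _
  have h1 : ∀ p ∈ S.filter (fun p => ι p = i), (q : ℝ) / p ≤ 1 / 2 ^ i := by
    intro p hp
    rw [mem_filter] at hp
    obtain ⟨h2, h3, h4, h5⟩ := hfact p hp.1
    obtain ⟨h6, h7⟩ := hidx p hp.1
    rw [hp.2] at h6
    have hp0 : (0 : ℝ) < p := by exact_mod_cast h2.pos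
    rw [div_le_div_iff₀ hp0 (by positivity), one_mul]
    have h8 : q * 2 ^ i ≤ p := by
      calc q * 2 ^ i ≤ q * κ p := Nat.mul_le_mul_left _ h6.le
        _ = κ p * q := mul_comm _ _
        _ ≤ p := by omega
    exact_mod_cast h8
  refine (sum_le_sum h1).trans ?_
  rw [sum_const, nsmul_eq_mul, mul_one_div]
  apply div_le_div_of_nonneg_right _ (by positivity)
  rw [Nat.cast_le]
  unfold aK
  apply card_le_card_of_injOn κ
  · intro p hp
    rw [mem_coe, mem_filter] at hp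
    obtain ⟨h2, h3, h4, h5⟩ := hfact p hp.1
    obtain ⟨h6, h7⟩ := hidx p hp.1
    rw [hp.2] at h6 h7
    rw [mem_coe, mem_filter, mem_Ioc]
    refine ⟨⟨h6, h7⟩, ?_⟩
    rw [mul_assoc, ← hq, ← h3]
    exact h2
  · intro p hp p' hp' he
    rw [mem_coe, mem_filter] at hp hp'
    have h2 := (hfact p hp.1).2.1
    have h3 := (hfact p' hp'.1).2.1
    rw [h2, h3, he]

/-- the pigeonhole over the scales -/
theorem dy (z Z W h Xl n : ℕ) (c : ℝ) (hc : 0 < c) (hW : 1 ≤ W) (hh : 1 ≤ h) (hX : 1 ≤ Xl)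
    (hz : 2 * Xl * (W * h) ≤ z) (hZ : Z < 2 ^ n)
    (hp : ∀ u : ℕ, 1 ≤ u → u ≤ h → c / ((W * u).totient : ℝ) ≤
      ∑ p ∈ (Ioc z Z).filter (fun p => p.Prime ∧ p ≡ 1 [MOD W * u]), (1 : ℝ) / p) :
    ∃ i : ℕ, Xl ≤ 2 ^ i ∧ 2 ^ i ≤ Z ∧
      (h : ℝ) * (c * (W / (W.totient : ℝ))) ≤ n * ∑ u ∈ Icc 1 h, (aK W (2 ^ i) u : ℝ) / 2 ^ i := by
  classical
  have hφ : (0 : ℝ) < W.totient := by exact_mod_cast Nat.totient_pos.2 hW
  have hW0 : (0 : ℝ) < W := by exact_mod_cast hW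
  set I := (range n).filter (fun i => Xl ≤ 2 ^ i ∧ 2 ^ i ≤ Z) with hI
  have h1 : ∀ u ∈ Icc 1 h, c * (W / (W.totient : ℝ)) ≤ ∑ i ∈ I, (aK W (2 ^ i) u : ℝ) / 2 ^ i := by
    intro u hu
    rw [mem_Icc] at hu
    have h2 : 2 * Xl * (W * u) ≤ z := le_trans (by gcongr; exact hu.2) hz
    refine le_trans ?_ (dy_one z Z W u Xl n hW hu.1 hX h2 hZ)
    have h3 := hp u hu.1 hu.2
    have hu0 : (0 : ℝ) < u := by exact_mod_cast hu.1
    have hφ2 : (0 : ℝ) < (W * u).totient := by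
      exact_mod_cast Nat.totient_pos.2 (Nat.mul_pos hW hu.1)
    have h4 : ((W * u).totient : ℝ) ≤ W.totient * u := by
      exact_mod_cast totient_mul_le' W u
    calc c * (W / (W.totient : ℝ)) = (W * u : ℝ) * (c / (W.totient * u)) := by
          field_simp
      _ ≤ (W * u : ℝ) * (c / ((W * u).totient : ℝ)) := by gcongr
      _ ≤ _ := by gcongr
  have h2 : (h : ℝ) * (c * (W / (W.totient : ℝ))) ≤
      ∑ i ∈ I, ∑ u ∈ Icc 1 h, (aK W (2 ^ i) u : ℝ) / 2 ^ i := by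
    rw [sum_comm]
    have h3 := sum_le_sum h1
    rw [sum_const, nsmul_eq_mul, Nat.card_Icc] at h3
    simpa using h3
  have hpos : 0 < (h : ℝ) * (c * (W / (W.totient : ℝ))) := by
    have : (0 : ℝ) < h := by exact_mod_cast hh
    positivity
  have hIne : I.Nonempty := by
    by_contra hcon
    rw [not_nonempty_iff_eq_empty] at hcon
    rw [hcon, sum_empty] at h2
    linarith
  obtain ⟨i, hi, hmax⟩ := exists_max_image I
    (fun i => ∑ u ∈ Icc 1 h, (aK W (2 ^ i) u : ℝ) / 2 ^ i) hIne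
  have hi' := hi
  rw [hI, mem_filter] at hi'
  refine ⟨i, hi'.2.1, hi'.2.2, h2.trans ?_⟩
  refine (sum_le_card_nsmul I _ _ hmax).trans ?_
  rw [nsmul_eq_mul]
  have h5 : (I.card : ℝ) ≤ n := by
    have := card_filter_le (range n) (fun i => Xl ≤ 2 ^ i ∧ 2 ^ i ≤ Z)
    rw [card_range] at this
    exact_mod_cast this
  apply mul_le_mul_of_nonneg_right h5
  exact sum_nonneg fun u _ => by positivity

end Pool.Agent.Y727.PSP
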