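import Pool.Agent.Y727.PSP.Dy
import Pool.Agent.Y727.PSP.Bd

/-!
# A good multiplier, the non-degenerate progression and its lift
-/

set_option autoImplicit false

open Finset

namespace Pool.Agent.Y727.PSP

open Pool.Agent.H602R3.DHJ

theorem rp_cast {N : ℕ} [NeZero N] (a : ZMod N) : ((rp a : ℕ) : ZMod N) = a := by
  unfold rp
  split_ifs with h
  · rw [h]; simp
  · simp

theorem rp_pos {N : ℕ} [NeZero N] (a : ZMod N) : 1 ≤ rp a := by
  unfold rp
  split_ifs with h
  · exact Nat.pos_of_ne_zero (NeZero.ne N)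
  · exact Nat.pos_of_ne_zero fun h2 => h ((ZMod.val_eq_zero a).1 h2)

theorem rp_le {N : ℕ} [NeZero N] (a : ZMod N) : rp a ≤ N := by
  unfold rp
  split_ifs with h
  · exact le_rfl
  · exact (ZMod.val_lt a).le

theorem rp_of {N : ℕ} [NeZero N] (u : ℕ) (h1 : 1 ≤ u) (h2 : u ≤ N) : rp ((u : ℕ) : ZMod N) = u := by
  unfold rp
  rcases h2.lt_or_eq with h | h
  · have h3 : ((u : ℕ) : ZMod N) ≠ 0 := by
      intro h4
      rw [ZMod.natCast_eq_zero_iff] at h4
      exact absurd (Nat.le_of_dvd h1 h4) (by omega)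
    rw [if_neg h3, ZMod.val_natCast, Nat.mod_eq_of_lt h]
  · rw [h, if_pos (by simp)]

theorem sum_rp (N : ℕ) [NeZero N] (F : ℕ → ℝ) : ∑ a : ZMod N, F (rp a) = ∑ u ∈ Icc 1 N, F u := by
  refine sum_nbij' (fun a => rp a) (fun u => ((u : ℕ) : ZMod N)) ?_ ?_ ?_ ?_ ?_
  · intro a _
    rw [mem_Icc]
    exact ⟨rp_pos a, rp_le a⟩
  · intro u _
    exact mem_univ _
  · intro a _
    exact rp_cast a
  · intro u hu
    rw [mem_Icc] at hu
    exact rp_of u hu.1 hu.2
  · intro a _
    rfl

open Classical in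
/-- the part of `nuK` on the primes in the first half -/
noncomputable def fK (ν : ℕ → ℝ) (N W h K : ℕ) (a : ZMod N) : ℝ :=
  if rp a ≤ h ∧ (1 + K * W * rp a).Prime then nuK ν N W K a else 0

theorem fK_nonneg (ν : ℕ → ℝ) (hν : ∀ n, 0 ≤ ν n) (N W h K : ℕ) (a : ZMod N) :
    0 ≤ fK ν N W h K a := by
  unfold fK
  split_ifs
  · exact hν _
  · exact le_rfl

theorem fK_le (ν : ℕ → ℝ) (hν : ∀ n, 0 ≤ ν n) (N W h K : ℕ) (a : ZMod N) :
    fK ν N W h K a ≤ nuK ν N W K a := by
  unfold fK
  split_ifs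
  · exact le_rfl
  · exact hν _

open Classical in
theorem goodK (X N W h n : ℕ) [NeZero N] (ν : ℕ → ℝ) (cM cP δ η C : ℝ) (Bd : Finset ℕ)
    (hν : ∀ n, 0 ≤ ν n) (hX : 1 ≤ X) (hW : 1 ≤ W) (hN : 5 ≤ N) (hh : h = (N - 1) / 2)
    (hcM : 0 < cM) (hcP : 0 < cP) (hC : 0 < C) (hlog : 0 < Real.log X)
    (hpr : ∀ p : ℕ, p.Prime → X < p → cM * ((W.totient : ℝ) / W) * Real.log X ≤ ν p)
    (hdy : (h : ℝ) * (cP * (W / (W.totient : ℝ))) ≤ n * ∑ u ∈ Icc 1 h, (aK W X u : ℝ) / X)
    (hn : (n : ℝ) ≤ C * Real.log X) (hδ : 0 < δ) (hδ2 : 12 * C * δ ≤ cM * cP)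
    (h1 : ∑ K ∈ Ioc X (2 * X), |av (nuK ν N W K) - 1| ≤ η * X)
    (h2 : Bd ⊆ Ioc X (2 * X)) (h3 : (Bd.card : ℝ) ≤ 2 * η * X) (h4 : η ≤ δ / 3) :
    ∃ K ∈ Ioc X (2 * X), K ∉ Bd ∧ δ ≤ av (fK ν N W h K) := by
  have hX0 : (0 : ℝ) < X := by exact_mod_cast hX
  have hN0 : (0 : ℝ) < N := by exact_mod_cast (show 0 < N by omega)
  have hW0 : (0 : ℝ) < W := by exact_mod_cast hW
  have hφ : (0 : ℝ) < W.totient := by exact_mod_cast Nat.totient_pos.2 hW
  have hhN : h ≤ N := by omega
  have h3h : (N : ℝ) ≤ 3 * h := by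
    have : N ≤ 3 * h := by omega
    exact_mod_cast this
  have hh0 : (0 : ℝ) < h := by
    have : 0 < h := by omega
    exact_mod_cast this
  -- lower bound for the sum
  have hlow : 4 * δ * X ≤ ∑ K ∈ Ioc X (2 * X), av (fK ν N W h K) := by
    have e1 : ∀ K, av (fK ν N W h K) =
        (∑ u ∈ Icc 1 N, if u ≤ h ∧ (1 + K * W * u).Prime then ν (1 + K * W * u) else 0) / N := by
      intro K
      rw [av, ZMod.card, ← sum_rp N
        (fun u => if u ≤ h ∧ (1 + K * W * u).Prime then ν (1 + K * W * u) else 0)]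
      rfl
    have e2 : ∀ K ∈ Ioc X (2 * X), (∑ u ∈ Icc 1 h, if (1 + K * W * u).Prime then
        cM * ((W.totient : ℝ) / W) * Real.log X else 0) / N ≤ av (fK ν N W h K) := by
      intro K hK
      rw [mem_Ioc] at hK
      rw [e1 K]
      apply div_le_div_of_nonneg_right _ hN0.le
      have hsub : Icc 1 h ⊆ Icc 1 N := Icc_subset_Icc le_rfl hhN
      refine le_trans (sum_le_sum fun u hu => ?_) (sum_le_sum_of_subset_of_nonneg hsub ?_)
      · rw [mem_Icc] at hu
        by_cases hp : (1 + K * W * u).Prime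
        · rw [if_pos hp, if_pos ⟨hu.2, hp⟩]
          apply hpr _ hp
          have : K * 1 * 1 ≤ K * W * u := by gcongr; exact hu.1
          omega
        · rw [if_neg hp, if_neg (fun hc => hp hc.2)]
      · intro u _ _
        split_ifs
        · exact hν _
        · exact le_rfl
    refine le_trans ?_ (sum_le_sum e2)
    rw [← sum_div, sum_comm]
    have e3 : ∀ u ∈ Icc 1 h, (∑ K ∈ Ioc X (2 * X), if (1 + K * W * u).Prime then
        cM * ((W.totient : ℝ) / W) * Real.log X else 0) =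
        cM * ((W.totient : ℝ) / W) * Real.log X * X * ((aK W X u : ℝ) / X) := by
      intro u _
      rw [← sum_filter, sum_const, nsmul_eq_mul]
      have : ((((Ioc X (2 * X)).filter (fun K => (1 + K * W * u).Prime)).card : ℕ) : ℝ) =
          (aK W X u : ℝ) := by
        unfold aK
        congr!
      rw [this]
      field_simp
    rw [sum_congr rfl e3, ← mul_sum]
    set A : ℝ := ∑ u ∈ Icc 1 h, (aK W X u : ℝ) / X with hA
    have hA0 : 0 ≤ A := sum_nonneg fun u _ => by positivity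
    have h5 : (h : ℝ) * (cP * (W / (W.totient : ℝ))) ≤ C * Real.log X * A :=
      hdy.trans (mul_le_mul_of_nonneg_right hn hA0)
    rw [le_div_iff₀ hN0]
    have h6 : (h : ℝ) * cP ≤ C * (((W.totient : ℝ) / W) * Real.log X * A) := by
      have h7 : (h : ℝ) * cP = ((W.totient : ℝ) / W) * ((h : ℝ) * (cP * (W / (W.totient : ℝ)))) := by
        field_simp
      rw [h7]
      calc ((W.totient : ℝ) / W) * ((h : ℝ) * (cP * (W / (W.totient : ℝ)))) ≤
          ((W.totient : ℝ) / W) * (C * Real.log X * A) := by gcongr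
        _ = _ := by ring
    have h8 : 4 * δ * N ≤ 12 * δ * h := by nlinarith
    have h9 : C * (12 * δ * h) ≤ C * (cM * (((W.totient : ℝ) / W) * Real.log X * A)) := by
      calc C * (12 * δ * h) = (12 * C * δ) * h := by ring
        _ ≤ (cM * cP) * h := by gcongr
        _ = cM * (h * cP) := by ring
        _ ≤ cM * (C * (((W.totient : ℝ) / W) * Real.log X * A)) := by gcongr
        _ = _ := by ring
    have h10 : 12 * δ * h ≤ cM * (((W.totient : ℝ) / W) * Real.log X * A) :=
      le_of_mul_le_mul_left h9 hC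
    calc 4 * δ * X * N = (4 * δ * N) * X := by ring
      _ ≤ (12 * δ * h) * X := by gcongr
      _ ≤ (cM * (((W.totient : ℝ) / W) * Real.log X * A)) * X := by gcongr
      _ = _ := by ring
  -- the upper bound if there is no good K
  by_contra hcon
  push Not at hcon
  have hup : ∑ K ∈ Ioc X (2 * X), av (fK ν N W h K) ≤ δ * X + (Bd.card + η * X) := by
    rw [← sum_sdiff h2]
    apply add_le_add
    · calc ∑ K ∈ Ioc X (2 * X) \ Bd, av (fK ν N W h K) ≤ ∑ K ∈ Ioc X (2 * X) \ Bd, δ := by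
            apply sum_le_sum
            intro K hK
            rw [mem_sdiff] at hK
            exact (hcon K hK.1 hK.2).le
        _ ≤ ∑ K ∈ Ioc X (2 * X), δ :=
            sum_le_sum_of_subset_of_nonneg sdiff_subset fun _ _ _ => hδ.le
        _ = δ * X := by
            rw [sum_const, nsmul_eq_mul, Nat.card_Ioc]
            have : 2 * X - X = X := by omega
            rw [this]
            ring
    · calc ∑ K ∈ Bd, av (fK ν N W h K) ≤ ∑ K ∈ Bd, (1 + |av (nuK ν N W K) - 1|) := by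
            apply sum_le_sum
            intro K _
            have h5 : av (fK ν N W h K) ≤ av (nuK ν N W K) := av_mono (fK_le ν hν N W h K)
            have h6 := le_abs_self (av (nuK ν N W K) - 1)
            linarith
        _ = Bd.card + ∑ K ∈ Bd, |av (nuK ν N W K) - 1| := by
            rw [sum_add_distrib, sum_const, nsmul_eq_mul, mul_one]
        _ ≤ Bd.card + η * X := by
            gcongr
            exact (sum_le_sum_of_subset_of_nonneg h2 fun _ _ _ => abs_nonneg _).trans h1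
  nlinarith

/-- the non-degenerate progression -/
theorem exAP (k N : ℕ) [NeZero N] (f : ZMod N → ℝ) (hf : ∀ a, 0 ≤ f a) (M c : ℝ)
    (hM : ∀ a, f a ≤ M) (hc : c ≤ av (fun p : ZMod N × ZMod N => ∏ j ∈ range k,
      f (p.1 + (j : ZMod N) * p.2))) (hMc : M ^ k / N < c) :
    ∃ a d : ZMod N, d ≠ 0 ∧ ∀ j < k, f (a + (j : ZMod N) * d) ≠ 0 := by
  by_contra hcon
  push Not at hcon
  have hN0 : (0 : ℝ) < N := by exact_mod_cast Nat.pos_of_ne_zero (NeZero.ne N)
  have h1 : av (fun p : ZMod N × ZMod N => ∏ j ∈ range k,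
      f (p.1 + (j : ZMod N) * p.2)) ≤ M ^ k / N := by
    rw [av_prod, av]
    rw [ZMod.card]
    have h2 : ∀ a : ZMod N, av (fun d : ZMod N => ∏ j ∈ range k, f (a + (j : ZMod N) * d)) ≤
        M ^ k / N := by
      intro a
      rw [av, ZMod.card]
      apply div_le_div_of_nonneg_right _ hN0.le
      rw [sum_eq_single (0 : ZMod N)]
      · calc ∏ j ∈ range k, f (a + (j : ZMod N) * 0) ≤ ∏ j ∈ range k, M :=
              prod_le_prod (fun j _ => hf _) (fun j _ => hM _)
          _ = M ^ k := by rw [prod_const, card_range]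
      · intro d _ hd
        obtain ⟨j, hj, hj2⟩ := hcon a d hd
        exact prod_eq_zero (mem_range.2 hj) hj2
      · intro hh
        exact absurd (mem_univ _) hh
    rw [div_le_iff₀ hN0]
    calc _ ≤ ∑ a : ZMod N, M ^ k / N := sum_le_sum fun a _ => h2 a
      _ = _ := by rw [sum_const, card_univ, ZMod.card, nsmul_eq_mul]; ring
  linarith

/-- the lift of a progression in the first half of `ZMod N` to a progression of integers -/
theorem lift (k N h : ℕ) [NeZero N] (hk : 2 ≤ k) (h2 : 2 * h < N) (a d : ZMod N) (hd : d ≠ 0)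
    (hv : ∀ j < k, rp (a + (j : ZMod N) * d) ≤ h) :
    ∃ a' r : ℕ, 1 ≤ a' ∧ 1 ≤ r ∧ ∀ j < k, ∃ j' < k, a' + j * r = rp (a + ((j' : ℕ) : ZMod N) * d) := by
  set v : ℕ → ℕ := fun j => rp (a + (j : ZMod N) * d) with hvd
  have hvc : ∀ j, ((v j : ℕ) : ZMod N) = a + (j : ZMod N) * d := fun j => rp_cast _
  have hv1 : ∀ j, 1 ≤ v j := fun j => rp_pos _
  set D : ℤ := (v 1 : ℤ) - v 0 with hD
  have hstep : ∀ j, j + 1 < k → (v (j + 1) : ℤ) - v j = D := by
    intro j hj
    have e1 : (((v (j + 1) : ℤ) - v j - D : ℤ) : ZMod N) = 0 := by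
      rw [hD]
      push_cast
      rw [hvc, hvc, hvc, hvc]
      push_cast
      ring
    rw [ZMod.intCast_zmod_eq_zero_iff_dvd] at e1
    have b1 := hv (j + 1) hj
    have b2 := hv j (by omega)
    have b3 := hv 1 (by omega)
    have b4 := hv 0 (by omega)
    have c1 := hv1 (j + 1)
    have c2 := hv1 j
    have c3 := hv1 1
    have c4 := hv1 0
    change v (j + 1) ≤ h at b1
    change v j ≤ h at b2
    change v 1 ≤ h at b3
    change v 0 ≤ h at b4
    have e2 : |(v (j + 1) : ℤ) - v j - D| < N := by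
      rw [abs_lt, hD]
      constructor <;> omega
    have e3 := Int.eq_zero_of_abs_lt_dvd e1 e2
    linarith
  have hlin : ∀ j, j < k → (v j : ℤ) = v 0 + j * D := by
    intro j
    induction j with
    | zero => intro _; simp
    | succ j ih =>
      intro hj
      have := ih (by omega)
      have h3 := hstep j hj
      push_cast
      linarith
  have hD0 : D ≠ 0 := by
    intro h0
    have e1 : ((D : ℤ) : ZMod N) = d := by
      rw [hD]
      push_cast
      rw [hvc, hvc]
      push_cast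
      ring
    rw [h0] at e1
    apply hd
    rw [← e1]
    simp
  rcases lt_or_gt_of_ne hD0 with hneg | hpos
  · refine ⟨v (k - 1), (-D).toNat, hv1 _, by omega, fun j hj => ⟨k - 1 - j, by omega, ?_⟩⟩
    have e1 := hlin (k - 1) (by omega)
    have e2 := hlin (k - 1 - j) (by omega)
    have e3 : (((k - 1 - j : ℕ) : ℤ)) = ((k - 1 : ℕ) : ℤ) - j := by omega
    have e4 : (((-D).toNat : ℕ) : ℤ) = -D := Int.toNat_of_nonneg (by omega)
    change v (k - 1) + j * (-D).toNat = v (k - 1 - j)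
    zify
    rw [e4, e1, e2, e3]
    ring
  · refine ⟨v 0, D.toNat, hv1 _, by omega, fun j hj => ⟨j, hj, ?_⟩⟩
    have e2 := hlin j hj
    have e4 : ((D.toNat : ℕ) : ℤ) = D := Int.toNat_of_nonneg (by omega)
    change v 0 + j * D.toNat = v j
    zify
    rw [e4, e2]

end Pool.Agent.Y727.PSP
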