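import Pool.Agent.Y727.PSP.Fin

/-!
# Assembly of `S_FIN`, the choice of the parameters
-/

set_option autoImplicit false

open Finset

namespace Pool.Agent.Y727.PSP

open Pool.Agent.H602R3.DHJ

theorem fin2 (hRS : S_RS) (hMK : S_MK) (hPRM : S_PRM) (hPSP : S_PSP) (k A : ℕ) (hk : 2 ≤ k) :
    ∃ a d : ℕ, A ≤ a ∧ 0 < d ∧ ∀ i < k,
      1 < a + i * d ∧ ¬ (a + i * d).Prime ∧ (a + i * d) ∣ 2 ^ (a + i * d) - 2 := by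
  obtain ⟨K0, cP, hK0, hcP, hP⟩ := hPRM
  obtain ⟨cM, hcM, hM⟩ := hMK k hk
  have hK0' : (1 : ℝ) ≤ K0 := by exact_mod_cast hK0
  obtain ⟨δ, hδd⟩ : ∃ δ : ℝ, δ = cM * cP / (48 * K0) := ⟨_, rfl⟩
  have hδ : 0 < δ := by rw [hδd]; positivity
  obtain ⟨cR, ηR, hcR, hηR, hR⟩ := hRS k hk δ hδ
  obtain ⟨η, hηd⟩ : ∃ η : ℝ, η = min ηR (δ / 3) := ⟨_, rfl⟩
  have hη : 0 < η := by rw [hηd]; exact lt_min hηR (by positivity)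
  obtain ⟨B0, B, s0, hB, hM2⟩ := hM η hη
  obtain ⟨X0, hM3⟩ := hM2 (B + 1)
  obtain ⟨Bq, hBqd⟩ : ∃ Bq : ℕ, Bq = 4 * k * (B + 1) + 2 * (B + 1) + 10 := ⟨_, rfl⟩
  obtain ⟨z1, hz1⟩ := hP Bq
  obtain ⟨T, hTd⟩ : ∃ T : ℕ, T = ⌈16 / η⌉₊ := ⟨_, rfl⟩
  have hT1 : 1 ≤ T := by rw [hTd]; exact Nat.ceil_pos.2 (by positivity)
  have hT16 : 16 / η ≤ T := by rw [hTd]; exact Nat.le_ceil _
  obtain ⟨L0, hL0⟩ := nums K0 B Bq k s0 T (A + 7 + X0 + 8 / η) cR hcR hBqd.ge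
  obtain ⟨z, hzd⟩ : ∃ z : ℕ, z = max z1 ⌈Real.exp L0⌉₊ := ⟨_, rfl⟩
  have hzL : Real.exp L0 ≤ z := by
    rw [hzd]
    exact (Nat.le_ceil _).trans (by exact_mod_cast le_max_right _ _)
  have hzz1 : z1 ≤ z := by rw [hzd]; exact le_max_left _ _
  have hz0 : (0 : ℝ) < z := lt_of_lt_of_le (Real.exp_pos L0) hzL
  have hz : 1 ≤ z := by exact_mod_cast hz0
  obtain ⟨L, hLd⟩ : ∃ L : ℝ, L = Real.log z := ⟨_, rfl⟩
  have hLL : L0 ≤ L := by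
    rw [hLd, Real.le_log_iff_exp_le hz0]
    exact hzL
  obtain ⟨f1, f2, f3, f4, f5, f6, f7, f8, f9, f10, f11⟩ := hL0 L hLL
  obtain ⟨w, Λ, hsq, hΛ, hwp, hwz, hwΛ, hPu⟩ := hz1 z hzz1
  rw [← hLd] at hwp hwz hwΛ hPu
  obtain ⟨N, hNp, hkN, hN1, hNL⟩ := exN k K0 B L hK0 (by omega) f1 f2 f3
  have : NeZero N := ⟨hNp.ne_zero⟩
  exact fin3 hPSP k A K0 B B0 s0 Bq T X0 cP cM cR ηR δ η hk hK0 hcP hcM hδd hη
    (by rw [hηd]; exact min_le_left _ _) (by rw [hηd]; exact min_le_right _ _) hR hB hM3 hT1 hT16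
    z w Λ N _ _ L hz hLd f1 f4 f5 f6 f7 f8 f9 f10 f11 (by
      rw [hBqd]
      have : 0 ≤ 4 * k * (B + 1) := Nat.zero_le _
      omega) hsq hΛ (fun p hp hpw => (hwp p hp hpw).1) (fun p hp hpw => (hwp p hp hpw).2) hwz hwΛ
    hPu hNp hkN hN1 hNL rfl rfl

/-- `S_FIN` from the relative Szemerédi theorem, the majorant, the primes and the pseudoprimes -/
theorem fin (hRS : S_RS) (hMK : S_MK) (hPRM : S_PRM) (hPSP : S_PSP) : S_FIN := by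
  intro k A
  obtain ⟨a, d, h1, h2, h3⟩ := fin2 hRS hMK hPRM hPSP (max k 2) A (le_max_right _ _)
  exact ⟨a, d, h1, h2, fun i hi => h3 i (lt_of_lt_of_le hi (le_max_left _ _))⟩

end Pool.Agent.Y727.PSP
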