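import Pool.Agent.Y727.PSP.Fb

/-!
# Assembly of `S_FIN`
-/

set_option autoImplicit false

open Finset

namespace Pool.Agent.Y727.PSP

open Pool.Agent.H602R3.DHJ

open Classical in
/-- the part of the assembly after the choice of all parameters -/
theorem fin3 (hPSP : S_PSP) (k A K0 B B0 s0 Bq T X0 : ℕ) (cP cM cR ηR δ η : ℝ) (hk : 2 ≤ k)
    (hK0 : 1 ≤ K0) (hcP : 0 < cP) (hcM : 0 < cM) (hδd : δ = cM * cP / (48 * K0)) (hη : 0 < η)
    (hηR : η ≤ ηR) (hηδ : η ≤ δ / 3)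
    (hR : ∀ (N : ℕ) [NeZero N], N.Prime → k < N → ∀ ν f : ZMod N → ℝ, (∀ a, 0 ≤ f a ∧ f a ≤ ν a) →
      LFk k N ν ηR → δ ≤ av f →
      cR ≤ av (fun p : ZMod N × ZMod N => ∏ j ∈ range k, f (p.1 + (j : ZMod N) * p.2)))
    (hB : k * B0 + 1 ≤ B)
    (hM3 : ∀ (X W N : ℕ) [NeZero N], X0 ≤ X → Ok (B + 1) s0 X W N →
      N.Prime → Real.log X ^ B ≤ N → ∃ ν : ℕ → ℝ, (∀ n, 0 ≤ ν n) ∧
      (∀ n, n ≤ X ^ 4 → ν n ≤ Real.log X ^ B0) ∧
      (∀ p : ℕ, p.Prime → X < p → cM * ((W.totient : ℝ) / W) * Real.log X ≤ ν p) ∧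
      ∑ K ∈ Ioc X (2 * X), |av (nuK ν N W K) - 1| ≤ η * X ∧
      (((Ioc X (2 * X)).filter (fun K => ¬ LFk k N (nuK ν N W K) η)).card : ℝ) ≤ η * X)
    (hT1 : 1 ≤ T) (hT16 : 16 / η ≤ T) (z w Λ N S P : ℕ) [NeZero N] (L : ℝ) (hz : 1 ≤ z)
    (hLd : L = Real.log z) (f1 : 2 ≤ L)
    (f4 : (4 : ℝ) ^ (s0 + 2) * L ^ (2 * (B + 1)) ≤ L ^ Bq)
    (f5 : 4 * L ^ (2 * Bq) * Real.exp (Real.sqrt L) ≤ Real.exp (L / 2))
    (f6 : s0 + 2 + (B + 1) * Real.log L + L ≤ Real.exp (Real.sqrt (L / 2)))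
    (f7 : 4 * (s0 + 2 + (B + 1) * Real.log L) ≤ 2 * Bq * Real.log L)
    (f8 : (T : ℝ) ^ 2 ≤ 2 * Bq * Real.log L)
    (f9 : (4 * L + 4 + k) * L ^ (4 * k * (B + 1)) < L ^ Bq) (f10 : 2 / L < cR)
    (f11 : (A : ℝ) + 7 + X0 + 8 / η ≤ Real.exp (L / 2)) (hBq : B + 1 ≤ Bq)
    (hsq : Squarefree w) (hΛ : 1 ≤ Λ) (hwp1 : ∀ p : ℕ, p.Prime → p ∣ w → (p - 1) ∣ Λ)
    (hwp2 : ∀ p : ℕ, p.Prime → p ∣ w → (p : ℝ) ≤ L)
    (hwz : (w : ℝ) ≤ Real.exp (Real.sqrt L)) (hwΛ : L ^ Bq * Λ ≤ 2 ^ (w.primeFactors.card / 2))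
    (hPu : ∀ P u : ℕ, 1 ≤ P → 1 ≤ u → (P : ℝ) ≤ L ^ Bq → (u : ℝ) ≤ L ^ Bq →
      cP / ((P * w * u).totient : ℝ) ≤ ∑ p ∈ (Ioc z (z ^ K0)).filter
        (fun p => p.Prime ∧ p ≡ 1 [MOD P * w * u]), (1 : ℝ) / p)
    (hNp : N.Prime) (hkN : k + 8 < N) (hN1 : ((K0 : ℝ) * L) ^ B ≤ N)
    (hNL : (N : ℝ) ≤ (L / 2) ^ (B + 1)) (hSd : S = s0 + ⌈Real.log N⌉₊) (hPd : P = primorial S) :
    ∃ a d : ℕ, A ≤ a ∧ 0 < d ∧ ∀ i < k,
      1 < a + i * d ∧ ¬ (a + i * d).Prime ∧ (a + i * d) ∣ 2 ^ (a + i * d) - 2 := by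
  have hK0' : (1 : ℝ) ≤ K0 := by exact_mod_cast hK0
  have hδ : 0 < δ := by rw [hδd]; positivity
  have hLp : 0 < L := by linarith
  have hL1 : (1 : ℝ) ≤ L / 2 := by linarith
  have hlogL : 0 ≤ Real.log L := Real.log_nonneg (by linarith)
  have hw1 : 1 ≤ w := Nat.pos_of_ne_zero hsq.ne_zero
  have hNBq : (N : ℝ) ≤ L ^ Bq := by
    calc (N : ℝ) ≤ (L / 2) ^ (B + 1) := hNL
      _ ≤ L ^ (B + 1) := by gcongr; linarith
      _ ≤ L ^ Bq := pow_le_pow_right₀ (by linarith) hBq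
  obtain ⟨h, hhd⟩ : ∃ h : ℕ, h = (N - 1) / 2 := ⟨_, rfl⟩
  have hh1 : 1 ≤ h := by omega
  have hhN : h ≤ N := by omega
  have h2h : 2 * h < N := by omega
  have hhN' : (h : ℝ) ≤ N := by exact_mod_cast hhN
  obtain ⟨hS1, hS2⟩ := prim_le s0 N B L f1 (by omega) hNL
  rw [← hSd] at hS1 hS2
  rw [← hPd] at hS2
  have hP1 : 1 ≤ P := by rw [hPd]; exact primorial_pos S
  have hPBq : (P : ℝ) ≤ L ^ Bq := by
    refine (hS2.trans ?_).trans f4
    gcongr
    · norm_num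
    · omega
  obtain ⟨W, hWd⟩ : ∃ W : ℕ, W = P * w := ⟨_, rfl⟩
  have hW1 : 1 ≤ W := by rw [hWd]; exact Nat.mul_pos hP1 hw1
  have hWr : (W : ℝ) ≤ L ^ Bq * Real.exp (Real.sqrt L) := by
    rw [hWd]; push_cast; gcongr
  have hLBq1 : 1 ≤ L ^ Bq := one_le_pow₀ (by linarith)
  have hesq : 1 ≤ Real.exp (Real.sqrt L) := Real.one_le_exp (Real.sqrt_nonneg _)
  have hL2Bq : L ^ (2 * Bq) = L ^ Bq * L ^ Bq := by rw [two_mul, pow_add]
  have hsqq : L ^ Bq ≤ 4 * (L ^ Bq * L ^ Bq) := by nlinarith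
  have hWexp : (W : ℝ) ≤ Real.exp (L / 2) := by
    refine (hWr.trans ?_).trans f5
    rw [hL2Bq]
    gcongr
  have hNexp : (N : ℝ) ≤ Real.exp (L / 2) := by
    refine (hNBq.trans ?_).trans f5
    rw [hL2Bq]
    calc L ^ Bq ≤ 4 * (L ^ Bq * L ^ Bq) := hsqq
      _ = 4 * (L ^ Bq * L ^ Bq) * 1 := (mul_one _).symm
      _ ≤ _ := by gcongr
  -- the scale
  obtain ⟨hexp3, hXl1, hXl2⟩ := exXl z hz
  rw [← hLd] at hexp3 hXl1 hXl2
  obtain ⟨Xl, hXld⟩ : ∃ Xl : ℕ, Xl = Nat.sqrt z + 1 := ⟨_, rfl⟩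
  rw [← hXld] at hXl1 hXl2
  have hzz : 2 * Xl * (W * h) ≤ z := by
    have : (2 * Xl * (W * h) : ℝ) ≤ z := by
      calc (2 * Xl * (W * h) : ℝ) ≤ 2 * (2 * Real.exp (L / 2)) *
            ((L ^ Bq * Real.exp (Real.sqrt L)) * L ^ Bq) := by
            gcongr
            exact hhN'.trans hNBq
        _ = Real.exp (L / 2) * (4 * L ^ (2 * Bq) * Real.exp (Real.sqrt L)) := by
            rw [hL2Bq]; ring
        _ ≤ Real.exp (L / 2) * Real.exp (L / 2) := by gcongr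
        _ = z := hexp3
    exact_mod_cast this
  obtain ⟨n, hnd⟩ : ∃ n : ℕ, n = Nat.log 2 (z ^ K0) + 1 := ⟨_, rfl⟩
  have hZn : z ^ K0 < 2 ^ n := by
    rw [hnd]; exact Nat.lt_pow_succ_log_self (by norm_num) _
  obtain ⟨i, hi1, hi2, hi3⟩ := dy z (z ^ K0) W h Xl n cP hcP hW1 hh1 (by omega) hzz hZn
    (fun u hu1 hu2 => by
      have := hPu P u hP1 hu1 hPBq
        (((by exact_mod_cast hu2 : (u : ℝ) ≤ h).trans hhN').trans hNBq)
      rw [hWd]
      exact this)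
  obtain ⟨X, hXd⟩ : ∃ X : ℕ, X = 2 ^ i := ⟨_, rfl⟩
  have hi3' : (h : ℝ) * (cP * (W / (W.totient : ℝ))) ≤
      n * ∑ u ∈ Icc 1 h, (aK W X u : ℝ) / X := by
    rw [hXd]
    push_cast
    exact hi3
  rw [← hXd] at hi1 hi2
  have hXexp : Real.exp (L / 2) < X := lt_of_lt_of_le hXl1 (by exact_mod_cast hi1)
  have hX0 : (0 : ℝ) < X := (Real.exp_pos _).trans hXexp
  have hX1 : 1 ≤ X := by exact_mod_cast hX0
  have hlX : L / 2 ≤ Real.log X := by
    rw [Real.le_log_iff_exp_le hX0]; exact hXexp.le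
  have hlX2 : Real.log X ≤ K0 * L := by
    rw [hLd]
    calc Real.log X ≤ Real.log ((z : ℝ) ^ K0) := Real.log_le_log hX0 (by exact_mod_cast hi2)
      _ = K0 * Real.log z := by rw [Real.log_pow]
  have hlX1 : 1 ≤ Real.log X := by linarith
  have h8η : 0 < 8 / η := by positivity
  have hX0n := (Nat.cast_nonneg X0 : (0 : ℝ) ≤ X0)
  have hAn := (Nat.cast_nonneg A : (0 : ℝ) ≤ A)
  have hAX : A ≤ X := by
    have : (A : ℝ) ≤ X := by linarith
    exact_mod_cast this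
  have h7X : 7 ≤ X := by
    have : ((7 : ℕ) : ℝ) ≤ X := by push_cast; linarith
    exact_mod_cast this
  have hX0X : X0 ≤ X := by
    have : (X0 : ℝ) ≤ X := by linarith
    exact_mod_cast this
  have h8X : 8 / η ≤ X := by linarith
  have hNX : N ≤ X := by
    have : (N : ℝ) ≤ X := hNexp.trans hXexp.le
    exact_mod_cast this
  have hWX : W ≤ X := by
    have : (W : ℝ) ≤ X := hWexp.trans hXexp.le
    exact_mod_cast this
  -- admissibility
  have hOk : Ok (B + 1) s0 X W N := by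
    rw [hWd, hPd]
    refine okW B s0 X N S w L hw1 (by omega) hSd hS1 f1 hNL hlX ?_ hwp2 f6
    rw [← hPd, ← hWd]
    exact_mod_cast hWX
  have hlXN : Real.log X ^ B ≤ N := by
    calc Real.log X ^ B ≤ ((K0 : ℝ) * L) ^ B := by gcongr
      _ ≤ N := hN1
  obtain ⟨ν, hν0, hνB, hνp, hνav, hνLF⟩ := hM3 X W N hX0X hOk hNp hlXN
  -- the bad multipliers
  have hωL : 2 * Bq * Real.log L ≤ w.primeFactors.card := omega_ge Λ Bq _ L (by linarith) hΛ hwΛ
  have hbad2 := badcard w.primeFactors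
    (fun p hp => (Nat.prime_of_mem_primeFactors hp).one_lt.le) X T η hη hT1 hT16 (f8.trans hωL) h8X
  obtain ⟨Bd, hBdd⟩ : ∃ Bd : Finset ℕ, Bd =
    ((Ioc X (2 * X)).filter (fun K => ¬ LFk k N (nuK ν N W K) η)) ∪
    ((Ioc X (2 * X)).filter (fun K => w.primeFactors.card <
      4 * (w.primeFactors.filter (fun p => p ∣ K)).card)) := ⟨_, rfl⟩
  have hBd2 : (Bd.card : ℝ) ≤ 2 * η * X := by
    have e1 : (Bd.card : ℝ) ≤
      (((Ioc X (2 * X)).filter (fun K => ¬ LFk k N (nuK ν N W K) η)).card : ℝ) +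
      (((Ioc X (2 * X)).filter (fun K => w.primeFactors.card <
      4 * (w.primeFactors.filter (fun p => p ∣ K)).card)).card : ℝ) := by
      rw [hBdd]
      exact_mod_cast card_union_le _ _
    have e2 : (((Ioc X (2 * X)).filter (fun K => w.primeFactors.card <
      4 * (w.primeFactors.filter (fun p => p ∣ K)).card)).card : ℝ) ≤ η * X := by
      convert hbad2 using 4
    linarith
  have hn4 : (n : ℝ) ≤ (4 * K0) * Real.log X := by
    have e1 := nlog z K0 hz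
    rw [← hLd] at e1
    have e3 : (n : ℝ) = (Nat.log 2 (z ^ K0) : ℕ) + 1 := by rw [hnd]; push_cast; ring
    rw [e3]
    have e7 : (K0 : ℝ) * (L / 2) ≤ K0 * Real.log X := by gcongr
    have e8 : 1 ≤ (K0 : ℝ) * Real.log X := by nlinarith
    linarith
  obtain ⟨K, hK, hKB, hKδ⟩ := goodK X N W h n ν cM cP δ η (4 * K0) Bd hν0 hX1 hW1 (by omega) hhd
    hcM hcP (by positivity) (by linarith) hνp hi3' hn4 hδ (by
      rw [hδd]
      have : 12 * (4 * (K0 : ℝ)) * (cM * cP / (48 * K0)) = cM * cP := by field_simp; ring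
      linarith) hνav (by
      rw [hBdd]
      apply union_subset <;> exact filter_subset _ _) hBd2 hηδ
  rw [hBdd, mem_union, not_or, mem_filter, mem_filter, not_and, not_and, not_not] at hKB
  have hKLF := hKB.1 hK
  have hKp := hKB.2 hK
  rw [mem_Ioc] at hK
  -- the progression in `ZMod N`
  have hAP := hR N hNp (by omega) (nuK ν N W K) (fK ν N W h K)
    (fun a => ⟨fK_nonneg ν hν0 N W h K a, fK_le ν hν0 N W h K a⟩) (LF_mono hKLF hηR) hKδ
  have hM : ∀ a, fK ν N W h K a ≤ Real.log X ^ B0 := by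
    intro a
    refine (fK_le ν hν0 N W h K a).trans (hνB _ ?_)
    calc 1 + K * W * rp a ≤ 1 + (2 * X) * X * X := by
          gcongr
          · exact hK.2
          · exact (rp_le a).trans hNX
      _ ≤ X * X * X * X := by
          have e1 : 1 ≤ X * X * X := Nat.mul_pos (Nat.mul_pos hX1 hX1) hX1
          calc 1 + (2 * X) * X * X ≤ (X * X * X) + (2 * X) * X * X := by omega
            _ = 3 * (X * X * X) := by ring
            _ ≤ X * (X * X * X) := Nat.mul_le_mul_right _ (by omega)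
            _ = _ := by ring
      _ = X ^ 4 := by ring
  have hN0 : (0 : ℝ) < N := by exact_mod_cast hNp.pos
  have hMc : (Real.log X ^ B0) ^ k / N < cR := by
    refine lt_of_le_of_lt ?_ f10
    rw [← pow_mul, mul_comm B0 k]
    have e1 : Real.log X ^ (k * B0) * Real.log X ≤ N := by
      rw [← pow_succ]
      exact (pow_le_pow_right₀ hlX1 hB).trans hlXN
    rw [div_le_div_iff₀ hN0 hLp]
    calc Real.log X ^ (k * B0) * L ≤ Real.log X ^ (k * B0) * (2 * Real.log X) := by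
          gcongr; linarith
      _ = 2 * (Real.log X ^ (k * B0) * Real.log X) := by ring
      _ ≤ 2 * N := by gcongr
  obtain ⟨a, d, hd, had⟩ := exAP k N (fK ν N W h K) (fK_nonneg ν hν0 N W h K) _ cR hM hAP hMc
  have had2 : ∀ j < k, rp (a + (j : ZMod N) * d) ≤ h ∧
      (1 + K * W * rp (a + (j : ZMod N) * d)).Prime := by
    intro j hj
    have := had j hj
    unfold fK at this
    by_contra hcon
    rw [if_neg hcon] at this
    exact this rfl
  obtain ⟨a', r, ha', hr, hlift⟩ := lift k N h hk h2h a d hd (fun j hj => (had2 j hj).1)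
  have hv : ∀ j < k, a' + j * r ≤ N := by
    intro j hj
    obtain ⟨j', hj', e⟩ := hlift j hj
    rw [e]
    exact (had2 j' hj').1.trans hhN
  have hpr : ∀ j < k, (1 + K * P * w * (a' + j * r)).Prime := by
    intro j hj
    obtain ⟨j', hj', e⟩ := hlift j hj
    rw [e]
    have := (had2 j' hj').2
    rw [hWd] at this
    rw [mul_assoc K P w]
    exact this
  -- the conclusion
  have hS4 : 4 * S ≤ w.primeFactors.card := by
    have : (4 * S : ℝ) ≤ w.primeFactors.card := by linarith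
    exact_mod_cast this
  have hmany := manyp w K S w.primeFactors.card rfl (by
    convert hKp using 4) hS4
  rw [← hPd] at hmany
  have hineq := pspineq k N a' r w Λ B Bq _ _ L f1 hΛ hNL hv hw1 hwz f9 hwΛ hmany
  have hKP7 : 7 ≤ K * P := by
    calc 7 ≤ X := h7X
      _ ≤ K := hK.1.le
      _ = K * 1 := (mul_one _).symm
      _ ≤ K * P := Nat.mul_le_mul_left _ hP1
  obtain ⟨g, hg1, hg⟩ := hPSP k (K * P) w Λ a' r (by omega) hKP7 hsq hΛ hwp1 ha' hr hpr hineq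
  have hKPw : X ≤ K * P * w := by
    calc X ≤ K := hK.1.le
      _ = K * 1 * 1 := by ring
      _ ≤ K * P * w := by gcongr
  refine ⟨g * (1 + K * P * w * a'), g * (K * P * w * r), ?_, ?_, ?_⟩
  · calc A ≤ X := hAX
      _ ≤ K * P * w := hKPw
      _ = 1 * (0 + K * P * w * 1) := by ring
      _ ≤ g * (1 + K * P * w * a') := by gcongr; omega
  · have : 0 < K * P * w := by omega
    positivity
  · intro j hj
    have e : g * (1 + K * P * w * a') + j * (g * (K * P * w * r)) =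
        g * (1 + K * P * w * (a' + j * r)) := by ring
    rw [e]
    refine ⟨?_, (hg j hj).1, (hg j hj).2⟩
    calc 1 < g := hg1
      _ = g * 1 := (mul_one _).symm
      _ ≤ g * (1 + K * P * w * (a' + j * r)) := Nat.mul_le_mul_left _ (by omega)

end Pool.Agent.Y727.PSP
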